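import Pool.Agent.H4.CS.RAT
import Pool.Agent.H71.CS.TRP

/-!
# Newton identities for the characteristic polynomial of a matrix over a domain
-/

set_option autoImplicit false

open Polynomial

namespace Pool.Agent.H97.QC

open Pool.Agent.H16.CS Pool.Agent.H4.CS Pool.Agent.H71.CS

/-- the coefficients of the reversed characteristic polynomial -/
noncomputable def ec {A : Type} [CommRing A] {m : ℕ} (M : Matrix (Fin m) (Fin m) A) (k : ℕ) : A :=
  (reflect m M.charpoly).coeff k

theorem ec_field {Ω : Type} [Field Ω] [IsAlgClosed Ω] {m : ℕ} (M : Matrix (Fin m) (Fin m) Ω) :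
    reflect m M.charpoly = rE M.charpoly.roots := by
  have h1 : Multiset.card M.charpoly.roots = m := by
    rw [card_roots_charpoly', Fintype.card_fin]
  have h2 := (IsAlgClosed.splits M.charpoly).eq_prod_roots
  rw [M.charpoly_monic.leadingCoeff, C_1, one_mul] at h2
  have h3 := refl_rE M.charpoly.roots
  rw [← h2, h1] at h3
  exact h3

theorem newton_field {Ω : Type} [Field Ω] [IsAlgClosed Ω] {m : ℕ} (M : Matrix (Fin m) (Fin m) Ω)
    (k : ℕ) : (k : Ω) * ec M k = -∑ p ∈ Finset.HasAntidiagonal.antidiagonal k,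
      ec M p.1 * (if p.2 = 0 then 0 else (M ^ p.2).trace) := by
  have h1 := congrArg (PowerSeries.coeff k) (th_rE M.charpoly.roots)
  unfold th at h1
  rw [PowerSeries.coeff_mk, map_neg, PowerSeries.coeff_mul, ← ec_field, coeff_coe] at h1
  unfold ec
  rw [h1]
  congr 1
  refine Finset.sum_congr rfl fun p _ => ?_
  rw [coeff_coe]
  congr 1
  unfold rS
  rw [PowerSeries.coeff_mk]
  split_ifs
  · rfl
  · rw [trace_pow']
    rfl

theorem ec_map {A B : Type} [CommRing A] [CommRing B] (φ : A →+* B) {m : ℕ}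
    (M : Matrix (Fin m) (Fin m) A) (k : ℕ) : ec (M.map φ) k = φ (ec M k) := by
  unfold ec
  rw [Matrix.charpoly_map, reflect_map, coeff_map]

theorem trace_pow_map {A B : Type} [CommRing A] [CommRing B] (φ : A →+* B) {m : ℕ}
    (M : Matrix (Fin m) (Fin m) A) (k : ℕ) : ((M.map φ) ^ k).trace = φ ((M ^ k).trace) := by
  have h3 : (M.map φ) ^ k = (M ^ k).map φ := by
    rw [← RingHom.mapMatrix_apply, ← RingHom.mapMatrix_apply, map_pow]
  rw [h3]
  exact (AddMonoidHom.map_trace φ.toAddMonoidHom _).symm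

theorem newton {A : Type} [CommRing A] [IsDomain A] {m : ℕ} (M : Matrix (Fin m) (Fin m) A)
    (k : ℕ) : (k : A) * ec M k = -∑ p ∈ Finset.HasAntidiagonal.antidiagonal k,
      ec M p.1 * (if p.2 = 0 then 0 else (M ^ p.2).trace) := by
  obtain ⟨φ, hφ⟩ : ∃ φ : A →+* AlgebraicClosure (FractionRing A), Function.Injective φ :=
    ⟨(algebraMap (FractionRing A) (AlgebraicClosure (FractionRing A))).comp
      (algebraMap A (FractionRing A)),
      (algebraMap (FractionRing A) (AlgebraicClosure (FractionRing A))).injective.comp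
        (IsFractionRing.injective A (FractionRing A))⟩
  apply hφ
  rw [map_mul, map_natCast, map_neg, map_sum, ← ec_map, newton_field]
  congr 1
  refine Finset.sum_congr rfl fun p _ => ?_
  rw [map_mul, ec_map]
  congr 1
  split_ifs
  · rw [map_zero]
  · rw [trace_pow_map]

theorem ec_zero {A : Type} [CommRing A] [Nontrivial A] {m : ℕ} (M : Matrix (Fin m) (Fin m) A) :
    ec M 0 = 1 := by
  unfold ec
  rw [coeff_reflect, revAt_le (Nat.zero_le m), Nat.sub_zero]
  have h1 := M.charpoly_monic
  have h2 := M.charpoly_natDegree_eq_dim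
  rw [Fintype.card_fin] at h2
  unfold Monic leadingCoeff at h1
  rw [h2] at h1
  exact h1

theorem ec_gt {A : Type} [CommRing A] [Nontrivial A] {m : ℕ} (M : Matrix (Fin m) (Fin m) A) (k : ℕ)
    (hk : m < k) : ec M k = 0 := by
  unfold ec
  rw [coeff_reflect, revAt_eq_self_of_lt hk]
  apply coeff_eq_zero_of_natDegree_lt
  rw [M.charpoly_natDegree_eq_dim, Fintype.card_fin]
  exact hk

theorem charpoly_coeff {A : Type} [CommRing A] [Nontrivial A] {m : ℕ}
    (M : Matrix (Fin m) (Fin m) A) (k : ℕ) (hk : k ≤ m) : M.charpoly.coeff k = ec M (m - k) := by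
  unfold ec
  rw [coeff_reflect, revAt_le (Nat.sub_le _ _), Nat.sub_sub_self hk]

theorem charpoly_coeff_gt {A : Type} [CommRing A] [Nontrivial A] {m : ℕ}
    (M : Matrix (Fin m) (Fin m) A) (k : ℕ) (hk : m < k) : M.charpoly.coeff k = 0 := by
  apply coeff_eq_zero_of_natDegree_lt
  rw [M.charpoly_natDegree_eq_dim, Fintype.card_fin]
  exact hk

/-- the coefficients of the characteristic polynomial lie in each divisible subring which contains
the traces of the powers -/
theorem ec_mem {A : Type} [CommRing A] [IsDomain A] (R : Subring A)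
    (hdiv : ∀ (k : ℕ) (a : A), k ≠ 0 → (k : A) * a ∈ R → a ∈ R) {m : ℕ}
    (M : Matrix (Fin m) (Fin m) A) (htr : ∀ k : ℕ, 1 ≤ k → (M ^ k).trace ∈ R) (k : ℕ) :
    ec M k ∈ R := by
  induction k using Nat.strong_induction_on with
  | _ k ih =>
    rcases Nat.eq_zero_or_pos k with h0 | h0
    · rw [h0, ec_zero]
      exact R.one_mem
    · apply hdiv k _ h0.ne'
      rw [newton]
      refine R.neg_mem (R.sum_mem fun p hp => ?_)
      rw [Finset.HasAntidiagonal.mem_antidiagonal] at hp
      by_cases h2 : p.2 = 0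
      · rw [if_pos h2, mul_zero]
        exact R.zero_mem
      · rw [if_neg h2]
        exact R.mul_mem (ih _ (by omega)) (htr _ (by omega))

theorem charpoly_mem {A : Type} [CommRing A] [IsDomain A] (R : Subring A)
    (hdiv : ∀ (k : ℕ) (a : A), k ≠ 0 → (k : A) * a ∈ R → a ∈ R) {m : ℕ}
    (M : Matrix (Fin m) (Fin m) A) (htr : ∀ k : ℕ, 1 ≤ k → (M ^ k).trace ∈ R) (k : ℕ) :
    M.charpoly.coeff k ∈ R := by
  rcases le_or_gt k m with h | h
  · rw [charpoly_coeff M k h]
    exact ec_mem R hdiv M htr _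
  · rw [charpoly_coeff_gt M k h]
    exact R.zero_mem

/-- the quotient of the two reversed characteristic polynomials -/
theorem quot {A : Type} [CommRing A] [IsDomain A] (R : Subring A)
    (hdiv : ∀ (k : ℕ) (a : A), k ≠ 0 → (k : A) * a ∈ R → a ∈ R) {m n : ℕ}
    (M : Matrix (Fin m) (Fin m) A) (N : Matrix (Fin n) (Fin n) A)
    (htr : ∀ k : ℕ, 1 ≤ k → (M ^ k).trace - (N ^ k).trace ∈ R) :
    ∃ z : ℕ → A, (∀ k, z k ∈ R) ∧ ∀ k, ∑ p ∈ Finset.HasAntidiagonal.antidiagonal k, z p.1 * ec M p.2 = ec N k := by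
  have hM : ∃ u, u * PowerSeries.mk (ec M) = 1 := by
    have h1 : IsUnit (PowerSeries.mk (ec M)) := by
      rw [PowerSeries.isUnit_iff_constantCoeff, ← PowerSeries.coeff_zero_eq_constantCoeff_apply,
        PowerSeries.coeff_mk, ec_zero]
      exact isUnit_one
    obtain ⟨u, hu⟩ := h1
    exact ⟨(u⁻¹ : (PowerSeries A)ˣ), by rw [← hu]; exact u.inv_mul⟩
  obtain ⟨u, hu⟩ := hM
  obtain ⟨Z, hZ⟩ : ∃ Z, Z = PowerSeries.mk (ec N) * u := ⟨_, rfl⟩
  have hZE : Z * PowerSeries.mk (ec M) = PowerSeries.mk (ec N) := by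
    rw [hZ, mul_assoc, hu, mul_one]
  have hco : ∀ k, ∑ p ∈ Finset.HasAntidiagonal.antidiagonal k, PowerSeries.coeff p.1 Z * ec M p.2 = ec N k := by
    intro k
    have h1 := congrArg (PowerSeries.coeff k) hZE
    rw [PowerSeries.coeff_mul, PowerSeries.coeff_mk] at h1
    rw [← h1]
    refine Finset.sum_congr rfl fun p _ => ?_
    rw [PowerSeries.coeff_mk]
  refine ⟨fun k => PowerSeries.coeff k Z, ?_, hco⟩
  -- the Euler operator
  obtain ⟨D, hD⟩ : ∃ D : PowerSeries A → PowerSeries A,
      D = fun F => PowerSeries.mk fun n => (n : A) * PowerSeries.coeff n F := ⟨_, rfl⟩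
  have hDmul : ∀ F G, D (F * G) = D F * G + F * D G := by
    intro F G
    rw [hD]
    ext n
    simp only
    rw [map_add, PowerSeries.coeff_mk, PowerSeries.coeff_mul, PowerSeries.coeff_mul,
      PowerSeries.coeff_mul, Finset.mul_sum, ← Finset.sum_add_distrib]
    refine Finset.sum_congr rfl fun p hp => ?_
    rw [Finset.HasAntidiagonal.mem_antidiagonal] at hp
    rw [PowerSeries.coeff_mk, PowerSeries.coeff_mk, ← hp]
    push_cast
    ring
  have hDe : ∀ {r : ℕ} (T : Matrix (Fin r) (Fin r) A), D (PowerSeries.mk (ec T)) =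
      -(PowerSeries.mk (ec T) * PowerSeries.mk fun i => if i = 0 then 0 else (T ^ i).trace) := by
    intro r T
    rw [hD]
    ext n
    simp only
    rw [PowerSeries.coeff_mk, PowerSeries.coeff_mk, newton, map_neg, PowerSeries.coeff_mul]
    congr 1
    refine Finset.sum_congr rfl fun p _ => ?_
    rw [PowerSeries.coeff_mk, PowerSeries.coeff_mk]
  have hDZ : D Z = Z * PowerSeries.mk fun i => if i = 0 then 0 else
      (M ^ i).trace - (N ^ i).trace := by
    have h1 := hDmul Z (PowerSeries.mk (ec M))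
    rw [hZE, hDe, hDe] at h1
    have h2 : (PowerSeries.mk fun i => if i = 0 then 0 else (M ^ i).trace - (N ^ i).trace) =
        (PowerSeries.mk fun i => if i = 0 then 0 else (M ^ i).trace) -
        (PowerSeries.mk fun i => if i = 0 then 0 else (N ^ i).trace) := by
      ext i
      rw [map_sub, PowerSeries.coeff_mk, PowerSeries.coeff_mk, PowerSeries.coeff_mk]
      split_ifs
      · rw [sub_zero]
      · rfl
    rw [h2]
    have h3 : D Z * PowerSeries.mk (ec M) = Z * PowerSeries.mk (ec M) *
        ((PowerSeries.mk fun i => if i = 0 then 0 else (M ^ i).trace) -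
        (PowerSeries.mk fun i => if i = 0 then 0 else (N ^ i).trace)) := by
      rw [← hZE] at h1
      linear_combination -h1
    calc D Z = D Z * PowerSeries.mk (ec M) * u := by rw [mul_assoc, mul_comm _ u, hu, mul_one]
      _ = _ := by
        rw [h3]
        linear_combination (Z * ((PowerSeries.mk fun i => if i = 0 then 0 else (M ^ i).trace) -
        (PowerSeries.mk fun i => if i = 0 then 0 else (N ^ i).trace))) * hu
  change ∀ k, PowerSeries.coeff k Z ∈ R
  intro k
  induction k using Nat.strong_induction_on with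
  | _ k ih =>
    rcases Nat.eq_zero_or_pos k with h0 | h0
    · rw [h0]
      have h1 := hco 0
      rw [Finset.Nat.antidiagonal_zero, Finset.sum_singleton, ec_zero, ec_zero, mul_one] at h1
      have h1' : PowerSeries.coeff 0 Z = 1 := h1
      rw [h1']
      exact R.one_mem
    · apply hdiv k _ h0.ne'
      have h1 := congrArg (PowerSeries.coeff k) hDZ
      rw [hD] at h1
      simp only at h1
      rw [PowerSeries.coeff_mk, PowerSeries.coeff_mul] at h1
      rw [h1]
      refine R.sum_mem fun p hp => ?_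
      rw [Finset.HasAntidiagonal.mem_antidiagonal] at hp
      rw [PowerSeries.coeff_mk]
      by_cases h2 : p.2 = 0
      · rw [if_pos h2, mul_zero]
        exact R.zero_mem
      · rw [if_neg h2]
        exact R.mul_mem (ih _ (by omega)) (htr _ (by omega))

end Pool.Agent.H97.QC
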