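import Pool.Agent.H97.QC.T2

/-!
# MP_f3a553_pr, module T1: the overlap
-/

set_option autoImplicit false

open MeasureTheory ProbabilityTheory Filter Topology
open scoped ENNReal NNReal BigOperators

namespace Pool.Agent.H97.QC

open Pool.Agent.H95 Pool.Agent.H95.QC

theorem XX_eq_iff {M N : ℕ} [NeZero M] (hM : 2 * N < M) (e e' : Fin N → Fin 4) (n : ℕ) :
    XX (st M) e n = XX (st M) e' n ↔ pos e n = pos e' n := by
  rw [XX_eq_rot, XX_eq_rot]
  constructor
  · intro h
    rw [← sect_rot hM (pos_bound e n), h, sect_rot hM (pos_bound e' n)]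
  · intro h; rw [h]

theorem sq_q {M N n : ℕ} [NeZero M] (hM : 2 * N < M) (hn : n ≤ N) :
    QC.sq (q M n) = (∑ e : Fin N → Fin 4, ∑ e' : Fin N → Fin 4,
      if pos e n = pos e' n then (1 : ℝ) else 0) / (4 ^ N * 4 ^ N) := by
  have h1 : ∀ x, q M n x =
      (∑ e : Fin N → Fin 4, if XX (st M) e n = x then (1 : ℝ) else 0) / 4 ^ N := by
    intro x
    unfold q
    rw [iterate_step (st M) N n hn]
    congr 1
    refine Finset.sum_congr rfl fun e _ => ?_
    simp only [dl, Pi.single_apply, sub_eq_zero]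
    congr 1
    rw [eq_iff_iff, eq_comm]
  unfold QC.sq
  simp only [h1]
  have h2 : ∀ x, ((∑ e : Fin N → Fin 4, if XX (st M) e n = x then (1 : ℝ) else 0) / 4 ^ N) ^ 2 =
      (∑ e : Fin N → Fin 4, ∑ e' : Fin N → Fin 4,
        if XX (st M) e n = x then (if XX (st M) e' n = x then (1 : ℝ) else 0) else 0) /
          (4 ^ N * 4 ^ N) := fun x => by
    rw [div_pow, _root_.sq, _root_.sq, Finset.sum_mul_sum]
    congr 1
    refine Finset.sum_congr rfl fun e _ => Finset.sum_congr rfl fun e' _ => ?_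
    split_ifs <;> simp
  simp only [h2]
  rw [← Finset.sum_div]
  congr 1
  rw [Finset.sum_comm]
  refine Finset.sum_congr rfl fun e _ => ?_
  rw [Finset.sum_comm]
  refine Finset.sum_congr rfl fun e' _ => ?_
  rw [Finset.sum_ite_eq]
  simp only [Finset.mem_univ, if_true]
  have := XX_eq_iff hM e e' n
  by_cases h : pos e n = pos e' n
  · rw [if_pos h, if_pos (this.2 h).symm]
  · rw [if_neg h, if_neg fun h' => h (this.1 h'.symm)]

theorem t1 (hK1 : TargetK1) : TargetT1 := by
  intro N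
  unfold Rpath Rn
  have h1 : ∀ n ∈ Finset.Icc 1 N, uZ n = (∑ e : Fin N → Fin 4, ∑ e' : Fin N → Fin 4,
      if pos e n = pos e' n then (1 : ℝ) else 0) / (4 ^ N * 4 ^ N) := by
    intro n hn
    have hn' := (Finset.mem_Icc.1 hn).2
    rw [← hK1 (2 * N + 1) n (by omega)]
    exact sq_q (M := 2 * N + 1) (N := N) (by omega) hn'
  rw [Finset.sum_congr rfl h1, ← Finset.sum_div]
  congr 1
  rw [Finset.sum_comm' (s := Finset.Icc 1 N) (t := fun _ => Finset.univ) (t' := Finset.univ)
    (s' := fun _ => Finset.Icc 1 N) (by simp)]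
  refine Finset.sum_congr rfl fun e _ => ?_
  rw [Finset.sum_comm]

end Pool.Agent.H97.QC
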