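import Pool.Agent.H97.QC.Comb

/-!
# MP_f3a553_pr, module T2: from the path definition to the torus
-/

set_option autoImplicit false

open MeasureTheory ProbabilityTheory Filter Topology
open scoped ENNReal NNReal BigOperators

universe u

namespace Pool.Agent.H97.QC

open Pool.Agent.H95 Pool.Agent.H95.QC

/-- rotated coordinates on the torus -/
def rot (M : ℕ) : ℤ × ℤ →+ Tor M where
  toFun y := (((y.1 + y.2 : ℤ) : ZMod M), ((y.1 - y.2 : ℤ) : ZMod M))
  map_zero' := by simp
  map_add' x y := by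
    ext <;> simp <;> ring

theorem rot_unitStep (M : ℕ) (i : Fin 4) : rot M (unitStep i) = st M i := by
  fin_cases i <;> ext <;> simp [rot, unitStep, st]

theorem XX_eq_rot (M : ℕ) {N : ℕ} (e : Fin N → Fin 4) (n : ℕ) :
    XX (st M) e n = rot M (pos e n) := by
  unfold XX pos
  rw [map_sum]
  refine Finset.sum_congr rfl fun i _ => ?_
  split_ifs
  · rw [rot_unitStep]
  · rw [map_zero]

theorem pos_bound {N : ℕ} (e : Fin N → Fin 4) (n : ℕ) :
    |(pos e n).1| + |(pos e n).2| ≤ N := by
  have h1 : (pos e n).1 = ∑ i : Fin N, if i.val < n then (unitStep (e i)).1 else 0 := by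
    unfold pos
    rw [Prod.fst_sum]
    refine Finset.sum_congr rfl fun i _ => ?_
    split_ifs <;> rfl
  have h2 : (pos e n).2 = ∑ i : Fin N, if i.val < n then (unitStep (e i)).2 else 0 := by
    unfold pos
    rw [Prod.snd_sum]
    refine Finset.sum_congr rfl fun i _ => ?_
    split_ifs <;> rfl
  rw [h1, h2]
  refine (add_le_add (Finset.abs_sum_le_sum_abs _ _) (Finset.abs_sum_le_sum_abs _ _)).trans ?_
  rw [← Finset.sum_add_distrib]
  refine (Finset.sum_le_card_nsmul _ _ 1 fun i _ => ?_).trans (by simp)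
  have h3 : ∀ j : Fin 4, |(unitStep j).1| + |(unitStep j).2| ≤ 1 := by decide
  split_ifs
  · exact h3 _
  · simp

/-- a section of `rot` near the origin, injective everywhere -/
def sect (M : ℕ) (x : Tor M) : ℤ × ℤ :=
  if (x.1.valMinAbs + x.2.valMinAbs) % 2 = 0 then
    ((x.1.valMinAbs + x.2.valMinAbs) / 2, (x.1.valMinAbs - x.2.valMinAbs) / 2)
  else (x.1.valMinAbs + 2 * M, x.2.valMinAbs)

theorem sect_injective (M : ℕ) [NeZero M] : Function.Injective (sect M) := by
  intro x y h
  have hM : 0 < (M : ℤ) := by exact_mod_cast Nat.pos_of_ne_zero (NeZero.ne M)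
  obtain ⟨a1, a2⟩ := x.1.valMinAbs_mem_Ioc
  obtain ⟨b1, b2⟩ := x.2.valMinAbs_mem_Ioc
  obtain ⟨c1, c2⟩ := y.1.valMinAbs_mem_Ioc
  obtain ⟨d1, d2⟩ := y.2.valMinAbs_mem_Ioc
  have key : x.1.valMinAbs = y.1.valMinAbs ∧ x.2.valMinAbs = y.2.valMinAbs := by
    unfold sect at h
    generalize x.1.valMinAbs = u at *
    generalize x.2.valMinAbs = v at *
    generalize y.1.valMinAbs = u' at *
    generalize y.2.valMinAbs = v' at *
    split_ifs at h with h1 h2 h2 <;> rw [Prod.mk.injEq] at h <;> obtain ⟨h3, h4⟩ := h <;>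
      constructor <;> omega
  exact Prod.ext (ZMod.injective_valMinAbs key.1) (ZMod.injective_valMinAbs key.2)

theorem valMinAbs_cast {M : ℕ} [NeZero M] {z : ℤ} (h : 2 * |z| < M) :
    ((z : ℤ) : ZMod M).valMinAbs = z := by
  rw [ZMod.valMinAbs_spec]
  refine ⟨rfl, ?_, ?_⟩ <;> cases abs_cases z <;> omega

theorem sect_rot {M N : ℕ} [NeZero M] (hM : 2 * N < M) {y : ℤ × ℤ} (hy : |y.1| + |y.2| ≤ N) :
    sect M (rot M y) = y := by
  have h1 : 2 * |y.1 + y.2| < (M : ℤ) := by
    have := abs_add_le y.1 y.2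

    omega
  have h2 : 2 * |y.1 - y.2| < (M : ℤ) := by
    have := abs_sub y.1 y.2

    omega
  have e1 : (rot M y).1.valMinAbs = y.1 + y.2 := valMinAbs_cast h1
  have e2 : (rot M y).2.valMinAbs = y.1 - y.2 := valMinAbs_cast h2
  unfold sect
  rw [e1, e2, if_pos (by omega)]
  ext
  · simp only; omega
  · simp only; omega

theorem t2 : TargetT2.{u} := by
  intro Ω _ P _ μ _ ω hω hind hlaw β N M _ _ hM
  set g : ℝ → ℝ≥0 := fun x => ⟨Real.exp (β * x - Lam μ β), (Real.exp_pos _).le⟩ with hg
  have hgm : Measurable g := by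
    refine Measurable.subtype_mk ?_
    fun_prop
  set Y : ℕ × Tor M → Ω → ℝ≥0 := fun p => g ∘ ω (p.1 + 1) (sect M p.2) with hY
  have hYm : ∀ p, Measurable (Y p) := fun p => hgm.comp (hω _ _)
  have hinj : Function.Injective (fun p : ℕ × Tor M => ((p.1 + 1, sect M p.2) : ℕ × (ℤ × ℤ))) := by
    rintro ⟨a, b⟩ ⟨c, d⟩ h
    simp only [Prod.mk.injEq, add_left_inj] at h
    exact Prod.ext h.1 (sect_injective M h.2)
  have hYi : iIndepFun Y P := (hind.precomp hinj).comp (fun _ => g) fun _ => hgm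
  have hYl : ∀ p, P.map (Y p) = wlaw μ β := fun p => by
    rw [hY]
    simp only
    rw [← Measure.map_map hgm (hω _ _), hlaw]
    rfl
  have hpr : IsProbabilityMeasure (wlaw μ β) := by
    rw [← hYl (0, 0)]
    exact Measure.isProbabilityMeasure_map (hYm _).aemeasurable
  have hmap := hYi.map_fun_eq_infinitePi_map hYm
  simp only [hYl] at hmap
  refine ⟨fun o k x => Y (k, x) o, ?_, ?_, ?_⟩
  · refine measurable_pi_lambda _ fun k => measurable_pi_lambda _ fun x => hYm _
  · have h1 : (fun o k x => Y (k, x) o) =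
        (MeasurableEquiv.curry ℕ (Tor M) ℝ≥0) ∘ (fun o p => Y p o) := rfl
    rw [h1, ← Measure.map_map (MeasurableEquiv.measurable _)
      (measurable_pi_lambda _ fun p => hYm p), hmap,
      Measure.infinitePi_map_curry (fun _ _ => wlaw μ β)]
    unfold env
    simp only [Measure.infinitePi_eq_pi]
  · intro o
    rw [Z_path]
    unfold Wpath
    congr 1
    refine Finset.sum_congr rfl fun e _ => ?_
    rw [Real.exp_sum]
    have h1 : Finset.Icc 1 N = (Finset.range N).image (· + 1) := by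
      ext i
      simp only [Finset.mem_Icc, Finset.mem_image, Finset.mem_range]
      constructor
      · rintro ⟨h1, h2⟩; exact ⟨i - 1, by omega, by omega⟩
      · rintro ⟨j, h1, rfl⟩; omega
    rw [h1, Finset.prod_image (fun a _ b _ h => by simpa using h), Finset.prod_range]
    refine Finset.prod_congr rfl fun k _ => ?_
    rw [zero_add, XX_eq_rot]
    simp only [hY, hg, Function.comp]
    rw [sect_rot (N := N) (by omega) (pos_bound e _)]
    rfl

end Pool.Agent.H97.QC
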