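import Pool.Agent.H95.QC.Targets

/-!
# MP_f3a553_pr, modules T1, T2: path combinatorics
-/

set_option autoImplicit false

open MeasureTheory ProbabilityTheory Filter Topology
open scoped ENNReal NNReal BigOperators

namespace Pool.Agent.H97.QC

open Pool.Agent.H95 Pool.Agent.H95.QC

section
variable {G : Type*} [AddCommGroup G]

/-- position at time `n` of the walk with steps `st (e 0), st (e 1), …` -/
def XX (st : Fin 4 → G) {N : ℕ} (e : Fin N → Fin 4) (n : ℕ) : G :=
  ∑ i : Fin N, if i.val < n then st (e i) else 0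

theorem XX_zero (st : Fin 4 → G) {N : ℕ} (e : Fin N → Fin 4) : XX st e 0 = 0 := by
  simp [XX]

theorem XX_cons (st : Fin 4 → G) {N : ℕ} (i : Fin 4) (e : Fin N → Fin 4) (n : ℕ) :
    XX st (Fin.cons i e : Fin (N + 1) → Fin 4) (n + 1) = st i + XX st e n := by
  unfold XX
  rw [Fin.sum_univ_succ]
  simp

theorem sum_cons {N : ℕ} (F : (Fin (N + 1) → Fin 4) → ℝ) :
    ∑ e, F e = ∑ i, ∑ e : Fin N → Fin 4, F (Fin.cons i e) := by
  rw [← Fintype.sum_prod_type' (f := fun i (e : Fin N → Fin 4) => F (Fin.cons i e))]
  exact (Fintype.sum_equiv (Fin.consEquiv fun _ => Fin 4) _ _ fun _ => rfl).symm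

variable [Fintype G] [DecidableEq G]

omit [Fintype G] [DecidableEq G] in
theorem step_one (st : Fin 4 → G) (f : G → ℝ) (x : G) :
    step st 1 f x = (∑ i, f (x - st i)) / 4 := by
  simp [step]

/-- `n` steps of the walk as an average over step sequences of length `N ≥ n` -/
theorem iterate_step (st : Fin 4 → G) (N : ℕ) : ∀ (n : ℕ) (_ : n ≤ N) (f : G → ℝ) (x : G),
    (step st 1)^[n] f x = (∑ e : Fin N → Fin 4, f (x - XX st e n)) / 4 ^ N := by
  induction N with
  | zero =>
    intro n hn f x
    obtain rfl : n = 0 := by omega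
    simp [XX]
  | succ N ih =>
    intro n hn f x
    rcases n with _ | n
    · simp [XX]
    · rw [Function.iterate_succ_apply, ih n (by omega), sum_cons]
      simp only [XX_cons, step_one]
      rw [Finset.sum_comm, ← Finset.sum_div, pow_succ, div_div, mul_comm (4 : ℝ)]
      congr 1
      refine Finset.sum_congr rfl fun e _ => Finset.sum_congr rfl fun i _ => ?_
      congr 1
      abel

theorem Z_dl_eq (st : Fin 4 → G) (a : G → ℝ) (n : ℕ) : ∀ (w : ℕ → G → ℝ≥0) (f : G → ℝ),
    Z st a n w f = ∑ z, f z * Z st a n w (dl z) := by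
  induction n with
  | zero =>
    intro w f
    simp [Z, evo, dl]
  | succ n ih =>
    intro w f
    have h : ∀ g : G → ℝ, Z st a (n + 1) w g =
        ∑ y, ((w 0 y : ℝ) * step st a g y) * Z st a n (shift 1 w) (dl y) := fun g => by
      rw [← ih]; rfl
    rw [h f]
    simp only [h]
    simp only [Finset.mul_sum]
    rw [Finset.sum_comm]
    refine Finset.sum_congr rfl fun y _ => ?_
    have h2 : step st a f y = ∑ z, f z * step st a (dl z) y := by
      simp only [step]
      simp only [← mul_div_assoc, Finset.mul_sum]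
      rw [← Finset.sum_div, Finset.sum_comm]
      congr 1
      refine Finset.sum_congr rfl fun i _ => ?_
      simp only [dl, Pi.single_apply]
      rw [Finset.sum_eq_single (y - st i)]
      · simp; ring
      · intro z _ hz
        rw [if_neg (Ne.symm hz)]; ring
      · simp
    rw [h2, Finset.mul_sum, Finset.sum_mul]
    refine Finset.sum_congr rfl fun z _ => ?_
    ring

/-- the partition function as a sum over paths -/
theorem Z_path (st : Fin 4 → G) (N : ℕ) : ∀ (w : ℕ → G → ℝ≥0) (z : G),
    Z st 1 N w (dl z) =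
      (∑ e : Fin N → Fin 4, ∏ k : Fin N, (w k (z + XX st e (k + 1)) : ℝ)) / 4 ^ N := by
  induction N with
  | zero =>
    intro w z
    simp [Z, evo, dl]
  | succ N ih =>
    intro w z
    have h1 : Z st 1 (N + 1) w (dl z) =
        Z st 1 N (shift 1 w) (fun x => (w 0 x : ℝ) * step st 1 (dl z) x) := rfl
    rw [h1, Z_dl_eq]
    simp only [ih, step_one]
    rw [sum_cons]
    have h2 : ∀ y : G, (∑ i, dl z (y - st i)) = ∑ i, dl (z + st i) y := fun y => by
      refine Finset.sum_congr rfl fun i _ => ?_
      simp only [dl, Pi.single_apply]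
      congr 1
      rw [eq_iff_iff]
      constructor
      · intro h; rw [← h]; abel
      · intro h; rw [h]; abel
    simp only [h2]
    have h3 : ∀ y : G, (w 0 y : ℝ) * ((∑ i, dl (z + st i) y) / 4) *
        ((∑ e : Fin N → Fin 4, ∏ k : Fin N, ((shift 1 w) k (y + XX st e (k + 1)) : ℝ)) / 4 ^ N) =
        (∑ i, dl (z + st i) y * ((w 0 y : ℝ) *
          (∑ e : Fin N → Fin 4, ∏ k : Fin N, ((shift 1 w) k (y + XX st e (k + 1)) : ℝ)))) /
            4 ^ (N + 1) := fun y => by
      rw [← Finset.sum_mul, pow_succ]
      field_simp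
    simp only [h3]
    rw [← Finset.sum_div, Finset.sum_comm]
    congr 1
    refine Finset.sum_congr rfl fun i _ => ?_
    rw [Finset.sum_eq_single (z + st i)]
    · simp only [dl, Pi.single_apply, if_true, one_mul]
      rw [Finset.mul_sum]
      refine Finset.sum_congr rfl fun e _ => ?_
      rw [Fin.prod_univ_succ]
      congr 1
      · simp only [Fin.val_zero, XX_cons, XX_zero]
        simp
      · refine Finset.prod_congr rfl fun k _ => ?_
        rw [shift_apply]
        simp only [Fin.val_succ, XX_cons]
        rw [add_assoc]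
    · intro y _ hy
      simp only [dl, Pi.single_apply, if_neg hy, zero_mul]
    · simp

end

end Pool.Agent.H97.QC
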