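import Mathlib

/-!
# Algebraic classes on the products of a motive with even cohomology and of a variety

`M` is a motive whose even cohomology has dimension `m` and whose odd cohomology has dimension `n`,
with coefficients in a field `K` of characteristic zero; `N` is a motive without odd cohomology, and
`J` is a basis of its cohomology `H(N)`. `N^s` is the `s`-th tensor power. An algebraic map
`N^s ⊗ M → M` is given by its values (endomorphisms of the cohomology of `M` which respect the
parity) at the tensors of `s` basis elements of `H(N)`, an algebraic map `N^s → 1` by its values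
(elements of `K`) at these tensors.
-/

set_option autoImplicit false

namespace Pool.Agent.H97.QC

/-- Pairs of matrices: endomorphisms (respecting the parity) of the cohomology of `M`. -/
abbrev End2 (A : Type) (m n : ℕ) : Type := Matrix (Fin m) (Fin m) A × Matrix (Fin n) (Fin n) A

/-- The supertrace. -/
def str {A : Type} [CommRing A] {m n : ℕ} (x : End2 A m n) : A := x.1.trace - x.2.trace

/-- The projector onto the even part. -/
def evenProj (A : Type) [CommRing A] (m n : ℕ) : End2 A m n := (1, 0)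

/-- The tensor product of two functions of `s` and of `t` indices with values in `K`. -/
def tmul {K : Type} [Field K] {J : Type} {s t : ℕ} (f : (Fin s → J) → K) (g : (Fin t → J) → K) :
    (Fin (s + t) → J) → K :=
  fun j => f (fun x => j (Fin.castAdd t x)) * g (fun x => j (Fin.natAdd s x))

/-- The tensor product of a map `N^s → 1` and a map `N^t ⊗ M → M`. -/
def tsmul {K : Type} [Field K] {m n : ℕ} {J : Type} {s t : ℕ} (f : (Fin s → J) → K)
    (a : (Fin t → J) → End2 K m n) : (Fin (s + t) → J) → End2 K m n :=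
  fun j => f (fun x => j (Fin.castAdd t x)) • a (fun x => j (Fin.natAdd s x))

/-- The composition of a map `N^s ⊗ M → M` and a map `N^t ⊗ M → M`. -/
def tcomp {K : Type} [Field K] {m n : ℕ} {J : Type} {s t : ℕ} (a : (Fin s → J) → End2 K m n)
    (b : (Fin t → J) → End2 K m n) : (Fin (s + t) → J) → End2 K m n :=
  fun j => a (fun x => j (Fin.castAdd t x)) * b (fun x => j (Fin.natAdd s x))

/-- Sets of algebraic maps. -/
structure Maps (K : Type) [Field K] (m n : ℕ) (J : Type) where
  /-- the algebraic maps `N^s → 1`: their values at the tensors of basis elements -/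
  sca : (s : ℕ) → Set ((Fin s → J) → K)
  /-- the algebraic maps `N^s ⊗ M → M`: their values at the tensors of basis elements of `H(N)^s` -/
  cor : (s : ℕ) → Set ((Fin s → J) → End2 K m n)
  /-- the algebraic classes of `N^s`: their coordinates -/
  vec : (s : ℕ) → Set ((Fin s → J) → K)

/-- The algebraic maps form vector spaces over the rational numbers. -/
structure Maps.Linear {K : Type} [Field K] {m n : ℕ} {J : Type} (W : Maps K m n J) : Prop where
  sca_zero : ∀ s : ℕ, (fun _ => 0) ∈ W.sca s
  sca_add : ∀ (s : ℕ) (f g : (Fin s → J) → K), f ∈ W.sca s → g ∈ W.sca s →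
    (fun j => f j + g j) ∈ W.sca s
  sca_rat : ∀ (s : ℕ) (q : ℚ) (f : (Fin s → J) → K), f ∈ W.sca s → (fun j => q * f j) ∈ W.sca s
  cor_zero : ∀ s : ℕ, (fun _ => 0) ∈ W.cor s
  cor_add : ∀ (s : ℕ) (a b : (Fin s → J) → End2 K m n), a ∈ W.cor s → b ∈ W.cor s →
    (fun j => a j + b j) ∈ W.cor s
  cor_rat : ∀ (s : ℕ) (q : ℚ) (a : (Fin s → J) → End2 K m n), a ∈ W.cor s →
    (fun j => (q : K) • a j) ∈ W.cor s

/-- The axioms for the algebraic classes. -/
structure Maps.Closed {K : Type} [Field K] {m n : ℕ} {J : Type} [Fintype J] (W : Maps K m n J) :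
    Prop where
  /-- rational vector spaces -/
  linear : W.Linear
  /-- the identity of `1` -/
  sca_one : (fun _ => 1) ∈ W.sca 0
  /-- the identity of `M` -/
  cor_one : (fun _ => 1) ∈ W.cor 0
  /-- tensor products -/
  sca_mul : ∀ (s t : ℕ), ∀ f ∈ W.sca s, ∀ g ∈ W.sca t, tmul f g ∈ W.sca (s + t)
  /-- tensor products -/
  sca_smul : ∀ (s t : ℕ), ∀ f ∈ W.sca s, ∀ a ∈ W.cor t, tsmul f a ∈ W.cor (s + t)
  /-- composition -/
  cor_mul : ∀ (s t : ℕ), ∀ a ∈ W.cor s, ∀ b ∈ W.cor t, tcomp a b ∈ W.cor (s + t)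
  /-- the partial supertrace `N^s → 1` of an algebraic map `N^s ⊗ M → M` -/
  str_mem : ∀ (s : ℕ), ∀ a ∈ W.cor s, (fun j => str (a j)) ∈ W.sca s
  /-- permutations of the factors `N` -/
  sca_perm : ∀ (s : ℕ) (σ : Equiv.Perm (Fin s)), ∀ f ∈ W.sca s,
    (fun j => f (fun x => j (σ x))) ∈ W.sca s
  /-- permutations of the factors `N` -/
  cor_perm : ∀ (s : ℕ) (σ : Equiv.Perm (Fin s)), ∀ a ∈ W.cor s,
    (fun j => a (fun x => j (σ x))) ∈ W.cor s
  /-- the value of an algebraic map `N^s ⊗ M → M` at an algebraic class of `N^s` -/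
  vec_cor : ∀ (s : ℕ), ∀ a ∈ W.cor s, ∀ v ∈ W.vec s, (fun _ => ∑ j, v j • a j) ∈ W.cor 0
  /-- the value of an algebraic map `N^s → 1` at an algebraic class of `N^s` is rational -/
  vec_sca : ∀ (s : ℕ), ∀ f ∈ W.sca s, ∀ v ∈ W.vec s, ∃ q : ℚ, ∑ j, f j * v j = (q : K)

/-- A family of sets of tensors `w` in `H(N)^{⊗ s}`, given by their coordinates, which contains `1`
(for `s = 0`) and is closed under tensor products. -/
structure Tensors (K : Type) [Field K] (J : Type) where
  /-- the tensors in `H(N)^{⊗ s}` -/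
  mem : (s : ℕ) → Set ((Fin s → J) → K)
  /-- the number one -/
  one_mem : (fun _ => 1) ∈ mem 0
  /-- tensor products -/
  mul_mem : ∀ (s t : ℕ), ∀ v ∈ mem s, ∀ w ∈ mem t, tmul v w ∈ mem (s + t)

/-- The values of the algebraic maps `N^s ⊗ M → M` (all `s`) at the tensors of the family `T`:
endomorphisms of the cohomology of `M`. -/
def values {K : Type} [Field K] {m n : ℕ} {J : Type} [Fintype J]
    (W : Maps K m n J) (T : Tensors K J) : Set (End2 K m n) :=
  {x | ∃ (s : ℕ) (a : (Fin s → J) → End2 K m n) (w : (Fin s → J) → K), a ∈ W.cor s ∧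
    w ∈ T.mem s ∧ x = ∑ j, w j • a j}

/-- Every subspace of the cohomology of `M` stable under the set `V` is the sum of its even and its
odd part. -/
def StableSplit {K : Type} [Field K] {m n : ℕ} (V : Set (End2 K m n)) : Prop :=
  ∀ G : Submodule K ((Fin m → K) × (Fin n → K)),
    (∀ x ∈ V, ∀ v ∈ G, (x.1.mulVec v.1, x.2.mulVec v.2) ∈ G) → ∀ v ∈ G, (v.1, 0) ∈ G

/-- The value of a map `N^s → 1` at a tensor in `H(N)^{⊗ s}`. -/
def pair {K : Type} [Field K] {J : Type} [Fintype J] {s : ℕ} (f w : (Fin s → J) → K) : K :=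
  ∑ j, f j * w j

/-- The product of the even projector and some algebraic map `f : N^s → 1`, with `f(w) ≠ 0` for some
`w` in `T`, is algebraic. -/
def Quotient {K : Type} [Field K] {m n : ℕ} {J : Type} [Fintype J]
    (W : Maps K m n J) (T : Tensors K J) : Prop :=
  ∃ (s : ℕ) (f w : (Fin s → J) → K), f ∈ W.sca s ∧ w ∈ T.mem s ∧ pair f w ≠ 0 ∧
    (fun j => f j • evenProj K m n) ∈ W.cor s

/-- No algebraic map `f : N^s → 1` with `f(w) ≠ 0` for some `w` in `T` is numerically trivial. -/
def HomNum {K : Type} [Field K] {m n : ℕ} {J : Type} [Fintype J]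
    (W : Maps K m n J) (T : Tensors K J) : Prop :=
  ∀ (s : ℕ) (f : (Fin s → J) → K), f ∈ W.sca s → (∃ w ∈ T.mem s, pair f w ≠ 0) →
    ∃ v ∈ W.vec s, pair f v ≠ 0

/-- The conjecture `C⁺(M)`: the even projector is algebraic. -/
def Cplus {K : Type} [Field K] {m n : ℕ} {J : Type} (W : Maps K m n J) : Prop :=
  (fun _ => evenProj K m n) ∈ W.cor 0

end Pool.Agent.H97.QC
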