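import Pool.Agent.H97.QC.One

/-!
# Several tensors at once
-/

set_option autoImplicit false

open MvPolynomial

namespace Pool.Agent.H97.QC

section

variable {K : Type} [Field K] [CharZero K] {m n : ℕ} {J : Type}

/-- the system of a direct sum of tensor powers -/
def der (W : TS K m n J) (I : Type) (S : I → ℕ) : TS K m n (Σ i : I, (Fin (S i) → J)) where
  sca := fun s =>
    { carrier := {f | ∀ u : s → I, (fun j : (Σ a : s, Fin (S (u a))) → J =>
        f (fun a => ⟨u a, fun b => j ⟨a, b⟩⟩)) ∈ W.sca (Σ a : s, Fin (S (u a)))}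
      add_mem' := fun hf hg u => Submodule.add_mem _ (hf u) (hg u)
      zero_mem' := fun u => Submodule.zero_mem _
      smul_mem' := fun c _ hf u => Submodule.smul_mem _ c (hf u) }
  cor := fun s =>
    { carrier := {f | ∀ u : s → I, (fun j : (Σ a : s, Fin (S (u a))) → J =>
        f (fun a => ⟨u a, fun b => j ⟨a, b⟩⟩)) ∈ W.cor (Σ a : s, Fin (S (u a)))}
      add_mem' := fun hf hg u => Submodule.add_mem _ (hf u) (hg u)
      zero_mem' := fun u => Submodule.zero_mem _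
      smul_mem' := fun c _ hf u => Submodule.smul_mem _ c (hf u) }
  sca_one := fun u => W.sca_re (Equiv.equivOfIsEmpty Empty (Σ a : Empty, Fin (S (u a)))) W.sca_one
  cor_one := fun u => W.cor_re (Equiv.equivOfIsEmpty Empty (Σ a : Empty, Fin (S (u a)))) W.cor_one
  sca_mul := fun {s t _ _} hf hg u =>
    W.sca_re (Equiv.sumSigmaDistrib fun a : s ⊕ t => Fin (S (u a))).symm
      (W.sca_mul (hf fun a => u (Sum.inl a)) (hg fun a => u (Sum.inr a)))
  sca_smul := fun {s t _ _} hf hg u =>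
    W.cor_re (Equiv.sumSigmaDistrib fun a : s ⊕ t => Fin (S (u a))).symm
      (W.sca_smul (hf fun a => u (Sum.inl a)) (hg fun a => u (Sum.inr a)))
  cor_mul := fun {s t _ _} hf hg u =>
    W.cor_re (Equiv.sumSigmaDistrib fun a : s ⊕ t => Fin (S (u a))).symm
      (W.cor_mul (hf fun a => u (Sum.inl a)) (hg fun a => u (Sum.inr a)))
  str_mem := fun ha u => W.str_mem (ha u)
  sca_re := fun {_ t} e _ hf u =>
    W.sca_re (Equiv.sigmaCongrLeft (β := fun a : t => Fin (S (u a))) e) (hf fun a => u (e a))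
  cor_re := fun {_ t} e _ hf u =>
    W.cor_re (Equiv.sigmaCongrLeft (β := fun a : t => Fin (S (u a))) e) (hf fun a => u (e a))

theorem mem_der_sca {W : TS K m n J} {I : Type} {S : I → ℕ} {s : Type}
    {f : (s → Σ i : I, (Fin (S i) → J)) → K} : f ∈ (der W I S).sca s ↔ ∀ u : s → I,
      (fun j : (Σ a : s, Fin (S (u a))) → J =>
        f (fun a => ⟨u a, fun b => j ⟨a, b⟩⟩)) ∈ W.sca (Σ a : s, Fin (S (u a))) := Iff.rfl

theorem mem_der_cor {W : TS K m n J} {I : Type} {S : I → ℕ} {s : Type}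
    {f : (s → Σ i : I, (Fin (S i) → J)) → End2 K m n} : f ∈ (der W I S).cor s ↔ ∀ u : s → I,
      (fun j : (Σ a : s, Fin (S (u a))) → J =>
        f (fun a => ⟨u a, fun b => j ⟨a, b⟩⟩)) ∈ W.cor (Σ a : s, Fin (S (u a))) := Iff.rfl

/-- words -/
def words (I : Type) (S : I → ℕ) (J : Type) (D : ℕ) : (Fin D → Σ i : I, (Fin (S i) → J)) ≃
    Σ u : Fin D → I, ((Σ a : Fin D, Fin (S (u a))) → J) where
  toFun := fun j => ⟨fun a => (j a).1, fun x => (j x.1).2 x.2⟩
  invFun := fun p a => ⟨p.1 a, fun b => p.2 ⟨a, b⟩⟩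
  left_inv := fun _ => rfl
  right_inv := fun _ => rfl

theorem multiSlot [Fintype J] (W : TS K m n J) (I : Type) [Fintype I] (S : I → ℕ)
    (v : (i : I) → (Fin (S i) → J) → K) (a : (i : I) → (Fin (S i) → J) → End2 K m n)
    (ha : ∀ i, a i ∈ W.cor (Fin (S i))) (hsum : ∑ i, ∑ j, v i j • a i j = evenProj K m n) :
    ∃ (D : ℕ) (u : Fin D → I) (f : ((Σ x : Fin D, Fin (S (u x))) → J) → K),
      f ∈ W.sca (Σ x : Fin D, Fin (S (u x))) ∧
      ∑ j, f j * ∏ x : Fin D, v (u x) (fun b => j ⟨x, b⟩) ≠ 0 ∧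
      (fun j => f j • evenProj K m n) ∈ W.cor (Σ x : Fin D, Fin (S (u x))) := by
  classical
  have h1 : (fun j : Fin 1 → Σ i : I, (Fin (S i) → J) => a (j 0).1 (j 0).2) ∈
      (der W I S).cor (Fin 1) := by
    rw [mem_der_cor]
    intro u
    exact W.cor_re (Equiv.uniqueSigma fun x : Fin 1 => Fin (S (u x))).symm (ha (u 0))
  have h2 : ∑ j : Fin 1 → Σ i : I, (Fin (S i) → J), (∏ i, v (j i).1 (j i).2) •
      a (j 0).1 (j 0).2 = evenProj K m n := by
    rw [← hsum, ← Fintype.sum_sigma (fun x : Σ i : I, (Fin (S i) → J) => v x.1 x.2 • a x.1 x.2)]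
    refine Fintype.sum_equiv (Equiv.funUnique (Fin 1) (Σ i : I, (Fin (S i) → J))) _ _ ?_
    intro j
    rw [Fintype.prod_unique]
    rfl
  obtain ⟨D, f, hf, hne, hc⟩ := oneSlot (der W I S)
    (fun j : Fin 1 → Σ i : I, (Fin (S i) → J) => a (j 0).1 (j 0).2) h1 (fun x => v x.1 x.2) h2
  rw [mem_der_sca] at hf
  rw [mem_der_cor] at hc
  obtain ⟨u, hu⟩ : ∃ u : Fin D → I, ∑ j : (Σ x : Fin D, Fin (S (u x))) → J,
      f (fun x => ⟨u x, fun b => j ⟨x, b⟩⟩) * ∏ x : Fin D, v (u x) (fun b => j ⟨x, b⟩) ≠ 0 := by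
    by_contra h
    push Not at h
    apply hne
    refine (Fintype.sum_equiv (words I S J D) (fun j => f j * ∏ i, v (j i).1 (j i).2)
      (fun p : Σ u : Fin D → I,
      ((Σ a : Fin D, Fin (S (u a))) → J) => f (fun x => ⟨p.1 x, fun b => p.2 ⟨x, b⟩⟩) *
        ∏ x : Fin D, v (p.1 x) (fun b => p.2 ⟨x, b⟩)) (fun j => rfl)).trans ?_
    rw [Fintype.sum_sigma]
    exact Finset.sum_eq_zero fun u _ => h u
  exact ⟨D, u, _, hf u, hu, hc u⟩

end

end Pool.Agent.H97.QC
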