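import Pool.Agent.H97.QC.Der
import Pool.Agent.H4.CS.GOO

/-!
# The theorem
-/

set_option autoImplicit false

open Polynomial

namespace Pool.Agent.H97.QC

section

variable {K : Type} [Field K] [CharZero K] {m n : ℕ} {J : Type} [Fintype J]

theorem reind_sca {W : Maps K m n J} (hW : W.Closed) {s : Type} {f : (s → J) → K} {N : ℕ} (e : Fin N ≃ s)
    (h : (fun j : Fin N → J => f (fun x => j (e.symm x))) ∈ W.sca N) (N' : ℕ) (e' : Fin N' ≃ s) :
    (fun j : Fin N' → J => f (fun x => j (e'.symm x))) ∈ W.sca N' := by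
  have h1 : N = N' := Fin.equiv_iff_eq.1 ⟨e.trans e'.symm⟩
  subst h1
  have h2 := hW.sca_perm _ (e.trans e'.symm) _ h
  have h3 : (fun j : Fin N → J => f (fun x => j (e'.symm x))) =
      fun j : Fin N → J => f (fun x => j ((e.trans e'.symm) (e.symm x))) := by
    funext j
    congr 1
    funext x
    rw [Equiv.trans_apply, Equiv.apply_symm_apply]
  rw [h3]
  exact h2

theorem reind_cor {W : Maps K m n J} (hW : W.Closed) {s : Type} {f : (s → J) → End2 K m n} {N : ℕ}
    (e : Fin N ≃ s) (h : (fun j : Fin N → J => f (fun x => j (e.symm x))) ∈ W.cor N) (N' : ℕ)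
    (e' : Fin N' ≃ s) :
    (fun j : Fin N' → J => f (fun x => j (e'.symm x))) ∈ W.cor N' := by
  have h1 : N = N' := Fin.equiv_iff_eq.1 ⟨e.trans e'.symm⟩
  subst h1
  have h2 := hW.cor_perm _ (e.trans e'.symm) _ h
  have h3 : (fun j : Fin N → J => f (fun x => j (e'.symm x))) =
      fun j : Fin N → J => f (fun x => j ((e.trans e'.symm) (e.symm x))) := by
    funext j
    congr 1
    funext x
    rw [Equiv.trans_apply, Equiv.apply_symm_apply]
  rw [h3]
  exact h2

theorem fin_split {s t : Type} {N : ℕ} (e : Fin N ≃ s ⊕ t) :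
    ∃ (a b : ℕ), Nonempty (Fin a ≃ s) ∧ Nonempty (Fin b ≃ t) := by
  have h1 : Finite (s ⊕ t) := Finite.of_equiv _ e
  have h2 : Finite s := Finite.of_injective (Sum.inl : s → s ⊕ t) Sum.inl_injective
  have h3 : Finite t := Finite.of_injective (Sum.inr : t → s ⊕ t) Sum.inr_injective
  obtain ⟨a, ⟨ea⟩⟩ := Finite.exists_equiv_fin s
  obtain ⟨b, ⟨eb⟩⟩ := Finite.exists_equiv_fin t
  exact ⟨a, b, ⟨ea.symm⟩, ⟨eb.symm⟩⟩

/-- the system with slots indexed by types -/
def toTS {W : Maps K m n J} (hW : W.Closed) : TS K m n J where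
  sca := fun s =>
    { carrier := {f | ∀ (N : ℕ) (e : Fin N ≃ s),
        (fun j : Fin N → J => f (fun x => j (e.symm x))) ∈ W.sca N}
      add_mem' := fun {_ _} hf hg N e => hW.linear.sca_add _ _ _ (hf N e) (hg N e)
      zero_mem' := fun _ _ => hW.linear.sca_zero _
      smul_mem' := fun c f hf N e => by
        have h1 := hW.linear.sca_rat _ c _ (hf N e)
        have h2 : (fun j : Fin N → J => (c • f) (fun x => j (e.symm x))) =
            fun j => (c : K) * f (fun x => j (e.symm x)) := by
          funext j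
          rw [Pi.smul_apply, Rat.smul_def]
        rw [h2]
        exact h1 }
  cor := fun s =>
    { carrier := {f | ∀ (N : ℕ) (e : Fin N ≃ s),
        (fun j : Fin N → J => f (fun x => j (e.symm x))) ∈ W.cor N}
      add_mem' := fun {_ _} hf hg N e => hW.linear.cor_add _ _ _ (hf N e) (hg N e)
      zero_mem' := fun _ _ => hW.linear.cor_zero _
      smul_mem' := fun c f hf N e => by
        have h1 := hW.linear.cor_rat _ c _ (hf N e)
        have h2 : (fun j : Fin N → J => (c • f) (fun x => j (e.symm x))) =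
            fun j => (c : K) • f (fun x => j (e.symm x)) := by
          funext j
          rw [Pi.smul_apply, Rat.cast_smul_eq_qsmul]
        rw [h2]
        exact h1 }
  sca_one := reind_sca hW (f := fun _ => (1 : K)) (Equiv.equivOfIsEmpty (Fin 0) Empty) hW.sca_one
  cor_one := reind_cor hW (f := fun _ => (1 : End2 K m n)) (Equiv.equivOfIsEmpty (Fin 0) Empty)
    hW.cor_one
  sca_mul := by
    intro s t f g hf hg N e
    obtain ⟨a, b, ⟨ea⟩, ⟨eb⟩⟩ := fin_split e
    exact reind_sca hW (f := fun j : s ⊕ t → J => f (fun x => j (Sum.inl x)) *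
      g (fun x => j (Sum.inr x))) (finSumFinEquiv.symm.trans (Equiv.sumCongr ea eb))
      (hW.sca_mul _ _ _ (hf a ea) _ (hg b eb)) N e
  sca_smul := by
    intro s t f g hf hg N e
    obtain ⟨a, b, ⟨ea⟩, ⟨eb⟩⟩ := fin_split e
    exact reind_cor hW (f := fun j : s ⊕ t → J => f (fun x => j (Sum.inl x)) •
      g (fun x => j (Sum.inr x))) (finSumFinEquiv.symm.trans (Equiv.sumCongr ea eb))
      (hW.sca_smul _ _ _ (hf a ea) _ (hg b eb)) N e
  cor_mul := by
    intro s t f g hf hg N e
    obtain ⟨a, b, ⟨ea⟩, ⟨eb⟩⟩ := fin_split e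
    exact reind_cor hW (f := fun j : s ⊕ t → J => f (fun x => j (Sum.inl x)) *
      g (fun x => j (Sum.inr x))) (finSumFinEquiv.symm.trans (Equiv.sumCongr ea eb))
      (hW.cor_mul _ _ _ (hf a ea) _ (hg b eb)) N e
  str_mem := fun ha N e => hW.str_mem _ _ (ha N e)
  sca_re := fun {s t} e {f} hf N e' => hf N (e'.trans e.symm)
  cor_re := fun {s t} e {f} hf N e' => hf N (e'.trans e.symm)

theorem mem_toTS_sca {W : Maps K m n J} (hW : W.Closed) {s : Type} {f : (s → J) → K} :
    f ∈ (toTS hW).sca s ↔ ∀ (N : ℕ) (e : Fin N ≃ s),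
      (fun j : Fin N → J => f (fun x => j (e.symm x))) ∈ W.sca N := Iff.rfl

theorem mem_toTS_cor {W : Maps K m n J} (hW : W.Closed) {s : Type} {f : (s → J) → End2 K m n} :
    f ∈ (toTS hW).cor s ↔ ∀ (N : ℕ) (e : Fin N ≃ s),
      (fun j : Fin N → J => f (fun x => j (e.symm x))) ∈ W.cor N := Iff.rfl

/-- splitting off the first letter -/
noncomputable def splitWord (D : ℕ) (S : Fin (D + 1) → ℕ) :
    Fin (S 0) ⊕ (Σ a : Fin D, Fin (S a.succ)) ≃ Σ a : Fin (D + 1), Fin (S a) :=
  Equiv.ofBijective (Sum.elim (fun b => ⟨0, b⟩) (fun x => ⟨x.1.succ, x.2⟩)) (by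
    constructor
    · intro x y h
      rcases x with x | x <;> rcases y with y | y
      · simp only [Sum.elim_inl, Sigma.mk.injEq, heq_eq_eq, true_and] at h
        rw [h]
      · simp only [Sum.elim_inl, Sum.elim_inr, Sigma.mk.injEq] at h
        exact absurd h.1 (Fin.succ_ne_zero _).symm
      · simp only [Sum.elim_inl, Sum.elim_inr, Sigma.mk.injEq] at h
        exact absurd h.1 (Fin.succ_ne_zero _)
      · obtain ⟨x1, x2⟩ := x
        obtain ⟨y1, y2⟩ := y
        simp only [Sum.elim_inr, Sigma.mk.injEq] at h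
        obtain ⟨h1, h2⟩ := h
        have h3 := Fin.succ_injective _ h1
        subst h3
        rw [heq_eq_eq] at h2
        rw [h2]
    · rintro ⟨a, b⟩
      induction a using Fin.cases with
      | zero => exact ⟨Sum.inl b, rfl⟩
      | succ a => exact ⟨Sum.inr ⟨a, b⟩, rfl⟩)

omit [CharZero K] [Fintype J] in
theorem word_mem (T : Tensors K J) (D : ℕ) : ∀ (S : Fin D → ℕ) (v : (a : Fin D) → (Fin (S a) → J) → K),
    (∀ a, v a ∈ T.mem (S a)) → ∃ (N : ℕ) (e : Fin N ≃ Σ a : Fin D, Fin (S a)),
      (fun j : Fin N → J => ∏ a : Fin D, v a (fun b => j (e.symm ⟨a, b⟩))) ∈ T.mem N := by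
  induction D with
  | zero =>
    intro S v _
    refine ⟨0, Equiv.equivOfIsEmpty _ _, ?_⟩
    have h1 : (fun j : Fin 0 → J => ∏ a : Fin 0, v a (fun b => j ((Equiv.equivOfIsEmpty (Fin 0)
        (Σ a : Fin 0, Fin (S a))).symm ⟨a, b⟩))) = fun _ => (1 : K) := by
      funext j
      exact Fin.prod_univ_zero _
    rw [h1]
    exact T.one_mem
  | succ D ih =>
    intro S v hv
    obtain ⟨N, e, he⟩ := ih (fun a => S a.succ) (fun a => v a.succ) fun a => hv a.succ
    refine ⟨S 0 + N, (finSumFinEquiv.symm.trans (Equiv.sumCongr (Equiv.refl _) e)).trans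
      (splitWord D S), ?_⟩
    have h1 := T.mul_mem _ _ _ (hv 0) _ he
    have h2 : (fun j : Fin (S 0 + N) → J => ∏ a : Fin (D + 1), v a (fun b => j
        (((finSumFinEquiv.symm.trans (Equiv.sumCongr (Equiv.refl _) e)).trans
        (splitWord D S)).symm ⟨a, b⟩))) = fun j : Fin (S 0 + N) → J =>
        v 0 (fun x => j (Fin.castAdd N x)) * ∏ a : Fin D, v a.succ
          (fun b => j (Fin.natAdd (S 0) (e.symm ⟨a, b⟩))) := by
      funext j
      rw [Fin.prod_univ_succ]
      congr 1
      · congr 1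
        funext b
        congr 1
        rw [Equiv.symm_apply_eq]
        simp only [Equiv.trans_apply, Equiv.sumCongr_apply]
        rw [finSumFinEquiv_symm_apply_castAdd]
        rfl
      · refine Finset.prod_congr rfl fun a _ => ?_
        congr 1
        funext b
        congr 1
        rw [Equiv.symm_apply_eq]
        simp only [Equiv.trans_apply, Equiv.sumCongr_apply]
        rw [finSumFinEquiv_symm_apply_natAdd]
        show _ = splitWord D S (Sum.inr (e (e.symm ⟨a, b⟩)))
        rw [Equiv.apply_symm_apply]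
        rfl
    rw [h2]
    exact h1

theorem values_mul {W : Maps K m n J} (hW : W.Closed) {T : Tensors K J} {x y : End2 K m n}
    (hx : x ∈ values W T) (hy : y ∈ values W T) : x * y ∈ values W T := by
  classical
  obtain ⟨s, a, w, ha, hw, rfl⟩ := hx
  obtain ⟨t, b, v, hb, hv, rfl⟩ := hy
  refine ⟨s + t, _, _, hW.cor_mul _ _ _ ha _ hb, T.mul_mem _ _ _ hw _ hv, ?_⟩
  rw [Finset.sum_mul_sum, ← Fintype.sum_prod_type' (fun (j : Fin s → J) (j' : Fin t → J) =>
    w j • a j * v j' • b j')]
  refine Fintype.sum_equiv (Fin.appendEquiv s t) _ _ ?_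
  intro p
  rw [smul_mul_smul_comm]
  simp [Fin.appendEquiv, tmul, tcomp]

theorem values_one {W : Maps K m n J} (hW : W.Closed) (T : Tensors K J) : 1 ∈ values W T := by
  refine ⟨0, _, _, hW.cor_one, T.one_mem, ?_⟩
  rw [Fintype.sum_unique, one_smul]

theorem adjoin_eq {W : Maps K m n J} (hW : W.Closed) (T : Tensors K J) (x : End2 K m n) :
    x ∈ Algebra.adjoin K (values W T) ↔ x ∈ Submodule.span K (values W T) := by
  have h1 : (Submonoid.closure (values W T) : Set (End2 K m n)) = values W T := by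
    apply Set.Subset.antisymm
    · have h2 : Submonoid.closure (values W T) ≤
          { carrier := values W T
            mul_mem' := values_mul hW
            one_mem' := values_one hW T } := Submonoid.closure_le.2 fun _ h => h
      exact h2
    · exact Submonoid.subset_closure
  rw [← Subalgebra.mem_toSubmodule, Algebra.adjoin_eq_span, h1]

end

end Pool.Agent.H97.QC
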