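import Pool.Agent.H97.QC.Comb

/-!
# MP_f3a553_pr, modules K1, K2: the kernel on the torus
-/

set_option autoImplicit false

open MeasureTheory ProbabilityTheory Filter Topology
open scoped ENNReal NNReal BigOperators

namespace Pool.Agent.H97.QC

open Pool.Agent.H95 Pool.Agent.H95.QC

/-- the one-dimensional kernel -/
noncomputable def b (M : ℕ) : ℕ → ZMod M → ℝ
  | 0, u => if u = 0 then 1 else 0
  | m + 1, u => (b M m (u - 1) + b M m (u + 1)) / 2

theorem b_nonneg (M m : ℕ) (u : ZMod M) : 0 ≤ b M m u := by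
  induction m generalizing u with
  | zero => unfold b; split_ifs <;> norm_num
  | succ m ih => unfold b; have := ih (u - 1); have := ih (u + 1); positivity

theorem b_eq (M m : ℕ) (u : ZMod M) : b M m u =
    (∑ k ∈ Finset.range (m + 1), (m.choose k : ℝ) *
      if ((2 * k - m : ℤ) : ZMod M) = u then 1 else 0) / 2 ^ m := by
  induction m generalizing u with
  | zero => simp [b, eq_comm]
  | succ m ih =>
    have e1 : ∀ z : ℤ, (((z : ℤ) : ZMod M) = u - 1) ↔ (((z + 1 : ℤ) : ZMod M) = u) := fun z => by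
      push_cast; exact ⟨fun h => by rw [h]; ring, fun h => by rw [← h]; ring⟩
    have e2 : ∀ z : ℤ, (((z : ℤ) : ZMod M) = u + 1) ↔ (((z - 1 : ℤ) : ZMod M) = u) := fun z => by
      push_cast; exact ⟨fun h => by rw [h]; ring, fun h => by rw [← h]; ring⟩
    unfold b
    rw [ih, ih]
    simp only [e1, e2]
    rw [Finset.sum_range_succ' _ (m + 1)]
    have h1 : ∀ k : ℕ, ((m + 1).choose (k + 1) : ℝ) *
        (if ((2 * ((k + 1 : ℕ) : ℤ) - ((m + 1 : ℕ) : ℤ) : ℤ) : ZMod M) = u then (1 : ℝ) else 0) =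
        (m.choose k : ℝ) * (if ((2 * k - m + 1 : ℤ) : ZMod M) = u then (1 : ℝ) else 0) +
        (m.choose (k + 1) : ℝ) *
          (if ((2 * ((k + 1 : ℕ) : ℤ) - m - 1 : ℤ) : ZMod M) = u then (1 : ℝ) else 0) := fun k => by
      rw [Nat.choose_succ_succ, Nat.cast_add, add_mul]
      have a1 : (2 * ((k + 1 : ℕ) : ℤ) - ((m + 1 : ℕ) : ℤ) : ℤ) = 2 * k - m + 1 := by
        push_cast; ring
      have a2 : (2 * ((k + 1 : ℕ) : ℤ) - m - 1 : ℤ) = 2 * k - m + 1 := by push_cast; ring
      rw [a1, a2]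
    simp only [h1]
    rw [Finset.sum_add_distrib]
    have h2 : ∑ k ∈ Finset.range (m + 1), (m.choose (k + 1) : ℝ) *
          (if ((2 * ((k + 1 : ℕ) : ℤ) - m - 1 : ℤ) : ZMod M) = u then (1 : ℝ) else 0) +
        ((m + 1).choose 0 : ℝ) *
          (if ((2 * ((0 : ℕ) : ℤ) - ((m + 1 : ℕ) : ℤ) : ℤ) : ZMod M) = u then (1 : ℝ) else 0) =
        ∑ k ∈ Finset.range (m + 1), (m.choose k : ℝ) *
          (if ((2 * k - m - 1 : ℤ) : ZMod M) = u then (1 : ℝ) else 0) := by
      have h3 := Finset.sum_range_succ' (fun k : ℕ => (m.choose k : ℝ) *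
          (if ((2 * k - m - 1 : ℤ) : ZMod M) = u then (1 : ℝ) else 0)) (m + 1)
      rw [Finset.sum_range_succ] at h3
      simp only [Nat.choose_succ_self, Nat.cast_zero, zero_mul, add_zero] at h3
      rw [h3]
      congr 1
      simp only [Nat.choose_zero_right]
      congr 2
      push_cast
      ring_nf
    rw [add_assoc, h2, pow_succ]
    field_simp

theorem b_zero_eq {M n : ℕ} (hM : 2 * n < M) :
    b M (2 * n) 0 = (n.centralBinom : ℝ) / 4 ^ n := by
  rw [b_eq, Finset.sum_eq_single n]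
  · have : ((2 * (n : ℤ) - ((2 * n : ℕ) : ℤ) : ℤ) : ZMod M) = 0 := by push_cast; ring
    rw [if_pos this, mul_one, Nat.centralBinom_eq_two_mul_choose, pow_mul]
    norm_num
  · intro k hk hkn
    rw [if_neg, mul_zero]
    intro h
    rw [ZMod.intCast_zmod_eq_zero_iff_dvd] at h
    have hk' := Finset.mem_range.1 hk
    have h0 : (2 * (k : ℤ) - ((2 * n : ℕ) : ℤ) : ℤ) = 0 := by
      refine Int.eq_zero_of_abs_lt_dvd h ?_
      push_cast
      rw [abs_lt]
      constructor <;> omega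
    push_cast at h0
    omega
  · intro h
    exact absurd (Finset.mem_range.2 (by omega)) h

theorem b_ge (M n j : ℕ) (hj : j ≤ 2 * n) :
    ((2 * n).choose j : ℝ) / 4 ^ n ≤ b M (2 * n) ((2 * j - (2 * n : ℕ) : ℤ) : ZMod M) := by
  rw [b_eq, pow_mul]
  have h := Finset.single_le_sum (f := fun k : ℕ => ((2 * n).choose k : ℝ) *
    if ((2 * k - (2 * n : ℕ) : ℤ) : ZMod M) = ((2 * j - (2 * n : ℕ) : ℤ) : ZMod M)
      then (1 : ℝ) else 0) (s := Finset.range (2 * n + 1))
    (fun k _ => by positivity) (Finset.mem_range.2 (by omega : j < 2 * n + 1))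
  simp only [if_true, mul_one] at h
  have h4 : (2 : ℝ) ^ 2 = 4 := by norm_num
  rw [h4]
  exact div_le_div_of_nonneg_right h (by positivity)

/-- `C(2n, n+k) ≥ C(2n, n) (1 - k²/n)` -/
theorem choose_ge (n k : ℕ) (hn : 1 ≤ n) (hk : k ≤ n) :
    (n.centralBinom : ℝ) * (1 - (k : ℝ) ^ 2 / n) ≤ ((2 * n).choose (n + k) : ℝ) := by
  induction k with
  | zero => simp [Nat.centralBinom_eq_two_mul_choose]
  | succ k ih =>
    have ih' := ih (by omega)
    have hn0 : (0 : ℝ) < n := by exact_mod_cast hn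
    have hc : (0 : ℝ) < n.centralBinom := by exact_mod_cast n.centralBinom_pos
    have hrec : ((2 * n).choose (n + (k + 1)) : ℝ) * ((n : ℝ) + k + 1) =
        ((2 * n).choose (n + k) : ℝ) * ((n : ℝ) - k) := by
      have h := Nat.choose_succ_right_eq (2 * n) (n + k)
      have h2 : 2 * n - (n + k) = n - k := by omega
      rw [h2] at h
      have h3 : (((2 * n).choose (n + k + 1) * (n + k + 1) : ℕ) : ℝ) =
        (((2 * n).choose (n + k) * (n - k) : ℕ) : ℝ) := by rw [h]
      rw [Nat.cast_mul, Nat.cast_mul, Nat.cast_sub (by omega)] at h3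
      push_cast at h3
      rw [← add_assoc n k 1]
      exact h3
    have hkn : (k : ℝ) + 1 ≤ n := by exact_mod_cast hk
    have hk0 : (0 : ℝ) ≤ k := Nat.cast_nonneg k
    have hden : 0 < (n : ℝ) + k + 1 := by positivity
    rcases le_or_gt ((k : ℝ) ^ 2) n with hc1 | hc1
    · have h5 : (n.centralBinom : ℝ) * (1 - (k : ℝ) ^ 2 / n) * ((n : ℝ) - k) ≤
          ((2 * n).choose (n + (k + 1)) : ℝ) * ((n : ℝ) + k + 1) := by
        rw [hrec]
        exact mul_le_mul_of_nonneg_right ih' (by linarith)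
      have h6 : (1 - ((k + 1 : ℕ) : ℝ) ^ 2 / n) * ((n : ℝ) + k + 1) ≤
          (1 - (k : ℝ) ^ 2 / n) * ((n : ℝ) - k) := by
        have e : (1 - (k : ℝ) ^ 2 / n) * ((n : ℝ) - k) -
            (1 - ((k + 1 : ℕ) : ℝ) ^ 2 / n) * ((n : ℝ) + k + 1) =
            (2 * (k : ℝ) ^ 3 + 3 * k ^ 2 + 3 * k + 1) / n - 0 := by
          push_cast
          field_simp
          ring
        have : 0 ≤ (2 * (k : ℝ) ^ 3 + 3 * k ^ 2 + 3 * k + 1) / n := by positivity
        linarith
      have h7 := mul_le_mul_of_nonneg_left h6 hc.le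
      have h8 : (n.centralBinom : ℝ) * (1 - ((k + 1 : ℕ) : ℝ) ^ 2 / n) * ((n : ℝ) + k + 1) ≤
          ((2 * n).choose (n + (k + 1)) : ℝ) * ((n : ℝ) + k + 1) := by
        refine le_trans ?_ h5
        rw [mul_assoc, mul_assoc]
        exact h7
      exact le_of_mul_le_mul_right h8 hden
    · refine le_trans ?_ (Nat.cast_nonneg _)
      refine mul_nonpos_of_nonneg_of_nonpos hc.le ?_
      have : 1 ≤ ((k + 1 : ℕ) : ℝ) ^ 2 / n := by
        rw [le_div_iff₀ hn0]
        push_cast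
        nlinarith
      linarith

/-! ### product structure -/

section Torus
variable {M : ℕ} [NeZero M]

omit [NeZero M] in
theorem q_eq (m : ℕ) (x : Tor M) : q M m x = b M m x.1 * b M m x.2 := by
  induction m generalizing x with
  | zero =>
    obtain ⟨u, v⟩ := x
    simp only [q, Function.iterate_zero, id, dl, Pi.single_apply, b, Prod.mk_eq_zero]
    split_ifs <;> simp_all
  | succ m ih =>
    have h : q M (m + 1) x = step (st M) 1 (q M m) x := by
      unfold q; rw [Function.iterate_succ_apply']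
    rw [h, step_one, Fin.sum_univ_four, ih, ih, ih, ih]
    simp only [st, b, Prod.fst_sub, Prod.snd_sub, Matrix.cons_val_zero, Matrix.cons_val_one,
      Matrix.cons_val]
    simp only [sub_neg_eq_add]
    ring

/-- self-adjointness -/
theorem step_adj (f g : Tor M → ℝ) :
    ∑ x, step (st M) 1 f x * g x = ∑ x, f x * step (st M) 1 g x := by
  simp only [step_one, Fin.sum_univ_four]
  have h : ∀ s : Tor M, ∑ x, f (x - s) * g x = ∑ x, f x * g (x + s) := fun s => by
    rw [← Equiv.sum_comp (Equiv.addRight s)]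
    simp
  have n0 : st M 0 = -st M 1 := by simp [st]
  have n2 : st M 2 = -st M 3 := by simp [st]
  have e1 : ∀ x, (f (x - st M 0) + f (x - st M 1) + f (x - st M 2) + f (x - st M 3)) / 4 * g x =
      (f (x - st M 0) * g x + f (x - st M 1) * g x + f (x - st M 2) * g x +
        f (x - st M 3) * g x) / 4 := fun x => by ring
  have e2 : ∀ x, f x * ((g (x - st M 0) + g (x - st M 1) + g (x - st M 2) + g (x - st M 3)) / 4) =
      (f x * g (x + st M 1) + f x * g (x + st M 0) + f x * g (x + st M 3) +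
        f x * g (x + st M 2)) / 4 := fun x => by
    rw [n0, n2]; simp only [sub_neg_eq_add, ← sub_eq_add_neg]; ring
  simp only [e1, e2]
  rw [← Finset.sum_div, ← Finset.sum_div]
  congr 1
  simp only [Finset.sum_add_distrib, h]
  ring

theorem iter_adj (n : ℕ) (f g : Tor M → ℝ) :
    ∑ x, (step (st M) 1)^[n] f x * g x = ∑ x, f x * (step (st M) 1)^[n] g x := by
  induction n generalizing f g with
  | zero => rfl
  | succ n ih =>
    rw [Function.iterate_succ_apply, ih, step_adj]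
    refine Finset.sum_congr rfl fun x _ => ?_
    rw [Function.iterate_succ_apply']

/-- convolution with the kernel -/
theorem iter_eq (n : ℕ) (f : Tor M → ℝ) (x : Tor M) :
    (step (st M) 1)^[n] f x = ∑ y, f y * q M n (x - y) := by
  have h1 : ∀ z, q M n z =
      (∑ e : Fin n → Fin 4, if XX (st M) e n = z then (1 : ℝ) else 0) / 4 ^ n := by
    intro z
    unfold q
    rw [iterate_step (st M) n n le_rfl]
    congr 1
    refine Finset.sum_congr rfl fun e _ => ?_
    simp only [dl, Pi.single_apply, sub_eq_zero]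
    congr 1
    rw [eq_iff_iff, eq_comm]
  rw [iterate_step (st M) n n le_rfl]
  simp only [h1, ← mul_div_assoc, Finset.mul_sum]
  rw [← Finset.sum_div, Finset.sum_comm]
  congr 1
  refine Finset.sum_congr rfl fun e _ => ?_
  rw [Finset.sum_eq_single (x - XX (st M) e n)]
  · simp
  · intro y _ hy
    rw [if_neg, mul_zero]
    intro h
    apply hy
    rw [h]; abel
  · simp

theorem sq_iter (n : ℕ) (F : Tor M → ℝ) :
    QC.sq ((step (st M) 1)^[n] F) = ∑ x, ∑ y, F x * F y * q M (2 * n) (x - y) := by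
  unfold QC.sq
  simp only [_root_.sq]
  rw [iter_adj, ← Function.iterate_add_apply, ← two_mul]
  refine Finset.sum_congr rfl fun x _ => ?_
  rw [iter_eq, Finset.mul_sum]
  refine Finset.sum_congr rfl fun y _ => ?_
  ring

theorem sq_q_eq (n : ℕ) : QC.sq (q M n) = q M (2 * n) 0 := by
  have h := sq_iter n (dl (0 : Tor M))
  have h2 : QC.sq ((step (st M) 1)^[n] (dl (0 : Tor M))) = QC.sq (q M n) := rfl
  rw [← h2, h, Finset.sum_eq_single 0, Finset.sum_eq_single 0]
  · simp [dl]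
  · intro y _ hy; simp [dl, hy]
  · simp
  · intro x _ hx; simp [dl, Pi.single_apply, hx]
  · simp

theorem q_zero {n : ℕ} (hM : 2 * n < M) : q M (2 * n) 0 = uZ n := by
  rw [q_eq]
  simp only [Prod.fst_zero, Prod.snd_zero]
  rw [b_zero_eq hM]
  unfold uZ
  ring

end Torus

theorem k1 : TargetK1 := by
  intro M n _ h
  rw [sq_q_eq, q_zero h]

/-! ### module K2 -/

section K2
variable {M : ℕ} [NeZero M]

theorem b_even_ge {n : ℕ} (hn : 1 ≤ n) (hM : 2 * n < M) {u : ZMod M} {k : ℤ}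
    (hk : ((2 * k : ℤ) : ZMod M) = u) :
    b M (2 * n) 0 * (1 - (k : ℝ) ^ 2 / n) ≤ b M (2 * n) u := by
  have hn0 : (0 : ℝ) < n := by exact_mod_cast hn
  by_cases hkn : k.natAbs ≤ n
  · rw [b_zero_eq hM]
    have h1 := choose_ge n k.natAbs hn hkn
    have h2 : ((k.natAbs : ℕ) : ℝ) ^ 2 = (k : ℝ) ^ 2 := by
      rw [← Int.cast_natCast, Int.natCast_natAbs, Int.cast_abs, sq_abs]
    rw [h2] at h1
    have h3 : (n.centralBinom : ℝ) / 4 ^ n * (1 - (k : ℝ) ^ 2 / n) ≤
        ((2 * n).choose (n + k.natAbs) : ℝ) / 4 ^ n := by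
      rw [div_mul_eq_mul_div]
      exact div_le_div_of_nonneg_right h1 (by positivity)
    refine h3.trans ?_
    rcases le_total 0 k with h | h
    · have h4 := b_ge M n (n + k.natAbs) (by omega)
      have h5 : (2 * ((n + k.natAbs : ℕ) : ℤ) - ((2 * n : ℕ) : ℤ) : ℤ) = 2 * k := by
        push_cast; rw [abs_of_nonneg h]; ring
      rw [h5, hk] at h4
      exact h4
    · have h4 := b_ge M n (n - k.natAbs) (by omega)
      have h5 : (2 * ((n - k.natAbs : ℕ) : ℤ) - ((2 * n : ℕ) : ℤ) : ℤ) = 2 * k := by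
        rw [Nat.cast_sub hkn]
        push_cast; rw [abs_of_nonpos h]; ring
      rw [h5, hk] at h4
      have h6 : (2 * n).choose (n + k.natAbs) = (2 * n).choose (n - k.natAbs) :=
        Nat.choose_symm_of_eq_add (by omega)
      rw [h6]
      exact h4
  · refine le_trans ?_ (b_nonneg M _ u)
    refine mul_nonpos_of_nonneg_of_nonpos (b_nonneg M _ _) ?_
    have h2 : (n : ℝ) < |(k : ℝ)| := by
      rw [← Int.cast_abs, ← Int.natCast_natAbs, Int.cast_natCast]
      exact_mod_cast not_le.1 hkn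
    have h3 : 1 ≤ (k : ℝ) ^ 2 / n := by
      rw [le_div_iff₀ hn0, one_mul, ← sq_abs]
      have : (1 : ℝ) ≤ n := by exact_mod_cast hn
      nlinarith
    linarith

/-- lower bound for the two-dimensional kernel -/
theorem q_ge {n : ℕ} (hn : 1 ≤ n) (hM : 2 * n < M) {z : Tor M} {k l : ℤ}
    (hk : ((2 * k : ℤ) : ZMod M) = z.1) (hl : ((2 * l : ℤ) : ZMod M) = z.2) :
    uZ n * (1 - ((k : ℝ) ^ 2 + (l : ℝ) ^ 2) / n) ≤ q M (2 * n) z := by
  have hn0 : (0 : ℝ) < n := by exact_mod_cast hn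
  have h1 := b_even_ge hn hM hk
  have h2 := b_even_ge hn hM hl
  have hu : uZ n = b M (2 * n) 0 * b M (2 * n) 0 := by
    rw [b_zero_eq hM]; unfold uZ; ring
  rw [q_eq, hu]
  have hb0 := b_nonneg M (2 * n) 0
  have hz1 := b_nonneg M (2 * n) z.1
  have hz2 := b_nonneg M (2 * n) z.2
  have hA : 0 ≤ (k : ℝ) ^ 2 / n := by positivity
  have hB : 0 ≤ (l : ℝ) ^ 2 / n := by positivity
  rw [add_div]
  set A := (k : ℝ) ^ 2 / n with hAd
  set B := (l : ℝ) ^ 2 / n with hBd
  by_cases hc : A ≤ 1 ∧ B ≤ 1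
  · have h3 : b M (2 * n) 0 * (1 - A) * (b M (2 * n) 0 * (1 - B)) ≤
        b M (2 * n) z.1 * b M (2 * n) z.2 :=
      mul_le_mul h1 h2 (mul_nonneg hb0 (by linarith [hc.2])) hz1
    refine le_trans ?_ h3
    have : 0 ≤ b M (2 * n) 0 * b M (2 * n) 0 * (A * B) := by positivity
    nlinarith
  · refine le_trans ?_ (mul_nonneg hz1 hz2)
    refine mul_nonpos_of_nonneg_of_nonpos (by positivity) ?_
    rw [not_and_or, not_le, not_le] at hc
    rcases hc with h | h <;> linarith

/-- upper bound for the kernel -/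
theorem q_le {n : ℕ} (z : Tor M) : q M (2 * n) z ≤ q M (2 * n) 0 := by
  have h1 : q M (2 * n) z = ∑ x, q M n x * q M n (x - z) := by
    have h := iter_adj (M := M) n ((step (st M) 1)^[n] (dl 0)) (dl z)
    rw [← Function.iterate_add_apply, ← two_mul] at h
    have h2 : ∑ x, (step (st M) 1)^[2 * n] (dl (0 : Tor M)) x * dl z x = q M (2 * n) z := by
      rw [Finset.sum_eq_single z]
      · simp [dl, q]
      · intro x _ hx; simp [dl, hx]
      · simp
    rw [← h2, h]
    refine Finset.sum_congr rfl fun x _ => ?_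
    congr 1
    rw [iter_eq, Finset.sum_eq_single z]
    · simp [dl]
    · intro y _ hy; simp [dl, hy]
    · simp
  have h3 : ∑ x, q M n (x - z) ^ 2 = QC.sq (q M n) := by
    unfold QC.sq
    exact Equiv.sum_comp (Equiv.subRight z) (fun x => q M n x ^ 2)
  rw [h1, ← sq_q_eq]
  have h4 : ∑ x, q M n x * q M n (x - z) ≤ ∑ x, (q M n x ^ 2 + q M n (x - z) ^ 2) / 2 :=
    Finset.sum_le_sum fun x _ => by nlinarith [sq_nonneg (q M n x - q M n (x - z))]
  refine h4.trans (le_of_eq ?_)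
  rw [← Finset.sum_div, Finset.sum_add_distrib, h3]
  unfold QC.sq
  ring

theorem valMinAbs_sub_sq (u v : ZMod M) :
    ((u - v).valMinAbs : ℝ) ^ 2 ≤ 2 * (u.valMinAbs : ℝ) ^ 2 + 2 * (v.valMinAbs : ℝ) ^ 2 := by
  have h1 : (u - v).valMinAbs.natAbs ≤ (u.valMinAbs - v.valMinAbs).natAbs := by
    refine ZMod.natAbs_min_of_le_div_two M _ _ ?_ (ZMod.natAbs_valMinAbs_le _)
    push_cast
    simp only [ZMod.coe_valMinAbs]
  have h2 : |((u - v).valMinAbs : ℝ)| ≤ |(u.valMinAbs : ℝ) - v.valMinAbs| := by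
    rw [← Int.cast_sub, ← Int.cast_abs, ← Int.cast_abs]
    rw [Int.abs_eq_natAbs, Int.abs_eq_natAbs]
    exact_mod_cast h1
  have h3 := sq_le_sq' (by linarith [abs_nonneg ((u - v).valMinAbs : ℝ), abs_nonneg ((u.valMinAbs : ℝ) - v.valMinAbs)]) h2
  rw [sq_abs, sq_abs] at h3
  nlinarith [sq_nonneg ((u.valMinAbs : ℝ) + v.valMinAbs)]

theorem even_valMinAbs (hM : Even M) {u v : ZMod M} (h : u.val % 2 = v.val % 2) :
    ∃ k : ℤ, (u - v).valMinAbs = 2 * k := by
  obtain ⟨m, hm⟩ := hM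
  have h1 : (((u - v).valMinAbs - ((u.val : ℤ) - (v.val : ℤ)) : ℤ) : ZMod M) = 0 := by
    push_cast
    simp only [ZMod.coe_valMinAbs, ZMod.natCast_val, ZMod.cast_id', id]
    ring
  rw [ZMod.intCast_zmod_eq_zero_iff_dvd] at h1
  obtain ⟨c, hc⟩ := h1
  refine ⟨(u - v).valMinAbs / 2, ?_⟩
  have h2 : (M : ℤ) * c = 2 * (m * c) := by rw [hm]; push_cast; ring
  rw [h2] at hc
  generalize (m : ℤ) * c = d at hc
  omega

theorem k2 (hK0 : TargetK0) : TargetK2 := by
  intro M n p _ hMe hn hM F hF hF0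
  have hM2 : 2 * n < M := by omega
  have hn0 : (0 : ℝ) < n := by exact_mod_cast hn
  have hu := (hK0.2 n hn).2
  have hu0 : 0 ≤ uZ n := by unfold uZ; positivity
  rw [sq_iter]
  have hz : ∑ x, ∑ y, F x * F y * q M (2 * n) 0 = 0 := by
    simp only [← Finset.sum_mul, ← Finset.mul_sum, hF0]
    simp
  have key : ∀ x y, F x * F y * q M (2 * n) (x - y) ≤ F x * F y * q M (2 * n) 0 +
      uZ n / (4 * n) * (|F x| * |F y| * (2 * nrm2 x + 2 * nrm2 y)) := by
    intro x y
    by_cases hx : F x = 0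
    · simp [hx]
    by_cases hy : F y = 0
    · simp [hy]
    obtain ⟨px1, px2⟩ := hF x hx
    obtain ⟨py1, py2⟩ := hF y hy
    obtain ⟨k, hk⟩ := even_valMinAbs hMe (px1.trans py1.symm)
    obtain ⟨l, hl⟩ := even_valMinAbs hMe (px2.trans py2.symm)
    have hk' : ((2 * k : ℤ) : ZMod M) = (x - y).1 := by
      rw [← hk, ZMod.coe_valMinAbs]; rfl
    have hl' : ((2 * l : ℤ) : ZMod M) = (x - y).2 := by
      rw [← hl, ZMod.coe_valMinAbs]; rfl
    have h1 := q_ge hn hM2 hk' hl'
    have h2 := q_le (n := n) (x - y)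
    have h3 : q M (2 * n) 0 = uZ n := q_zero hM2
    have h4 : 4 * ((k : ℝ) ^ 2 + (l : ℝ) ^ 2) ≤ 2 * nrm2 x + 2 * nrm2 y := by
      have e1 := valMinAbs_sub_sq x.1 y.1
      have e2 := valMinAbs_sub_sq x.2 y.2
      rw [hk] at e1
      rw [hl] at e2
      push_cast at e1 e2
      unfold nrm2
      nlinarith
    have h5 : q M (2 * n) 0 - q M (2 * n) (x - y) ≤
        uZ n / (4 * n) * (2 * nrm2 x + 2 * nrm2 y) := by
      have h6 : uZ n * (((k : ℝ) ^ 2 + (l : ℝ) ^ 2) / n) ≤
          uZ n / (4 * n) * (2 * nrm2 x + 2 * nrm2 y) := by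
        have e : uZ n * (((k : ℝ) ^ 2 + (l : ℝ) ^ 2) / n) =
          uZ n / (4 * n) * (4 * ((k : ℝ) ^ 2 + (l : ℝ) ^ 2)) := by field_simp
        rw [e]
        exact mul_le_mul_of_nonneg_left h4 (by positivity)
      linarith
    have h7 : -(F x * F y) ≤ |F x| * |F y| := by
      rw [← abs_mul]; exact neg_le_abs _
    have h8 : 0 ≤ q M (2 * n) 0 - q M (2 * n) (x - y) := by linarith
    have h9 : 0 ≤ |F x| * |F y| := by positivity
    calc F x * F y * q M (2 * n) (x - y) = F x * F y * q M (2 * n) 0 +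
          (-(F x * F y)) * (q M (2 * n) 0 - q M (2 * n) (x - y)) := by ring
      _ ≤ F x * F y * q M (2 * n) 0 +
          (|F x| * |F y|) * (q M (2 * n) 0 - q M (2 * n) (x - y)) := by
        have := mul_le_mul_of_nonneg_right h7 h8
        linarith
      _ ≤ F x * F y * q M (2 * n) 0 +
          (|F x| * |F y|) * (uZ n / (4 * n) * (2 * nrm2 x + 2 * nrm2 y)) := by
        have := mul_le_mul_of_nonneg_left h5 h9
        linarith
      _ = _ := by ring
  have h10 : ∑ x, ∑ y, F x * F y * q M (2 * n) (x - y) ≤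
      ∑ x, ∑ y, (F x * F y * q M (2 * n) 0 +
        uZ n / (4 * n) * (|F x| * |F y| * (2 * nrm2 x + 2 * nrm2 y))) :=
    Finset.sum_le_sum fun x _ => Finset.sum_le_sum fun y _ => key x y
  refine h10.trans ?_
  simp only [Finset.sum_add_distrib]
  rw [hz, zero_add]
  have h11 : ∑ x, ∑ y, uZ n / (4 * n) * (|F x| * |F y| * (2 * nrm2 x + 2 * nrm2 y)) =
      uZ n / n * ((∑ x, |F x|) * ∑ x, |F x| * nrm2 x) := by
    have e : ∀ x y, uZ n / (4 * n) * (|F x| * |F y| * (2 * nrm2 x + 2 * nrm2 y)) =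
        uZ n / (2 * n) * ((|F x| * nrm2 x) * |F y|) +
        uZ n / (2 * n) * (|F x| * (|F y| * nrm2 y)) := fun x y => by field_simp; ring
    simp only [e, Finset.sum_add_distrib, ← Finset.mul_sum, ← Finset.sum_mul]
    field_simp
    ring
  rw [h11]
  have hS : 0 ≤ (∑ x, |F x|) * ∑ x, |F x| * nrm2 x := by
    refine mul_nonneg (Finset.sum_nonneg fun x _ => abs_nonneg _)
      (Finset.sum_nonneg fun x _ => mul_nonneg (abs_nonneg _) ?_)
    unfold nrm2; positivity
  have h12 : uZ n / n ≤ 1 / (3 * (n : ℝ) ^ 2) := by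
    rw [div_le_div_iff₀ hn0 (by positivity)]
    rw [le_div_iff₀ (by positivity)] at hu
    nlinarith
  calc uZ n / n * ((∑ x, |F x|) * ∑ x, |F x| * nrm2 x) ≤
        1 / (3 * (n : ℝ) ^ 2) * ((∑ x, |F x|) * ∑ x, |F x| * nrm2 x) :=
        mul_le_mul_of_nonneg_right h12 hS
    _ = _ := by ring

end K2

end Pool.Agent.H97.QC
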