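import Mathlib

/-!
# A Toeplitz system
-/

set_option autoImplicit false

open Polynomial

namespace Pool.Agent.H97.QC

theorem conv {B : Type} [CommRing B] (z y : ℕ → B) (m n : ℕ) (hy : ∀ k, m < k → y k = 0)
    (j : Fin m) : ∑ p ∈ Finset.HasAntidiagonal.antidiagonal (n + 1 + (j : ℕ)), z p.1 * y p.2 =
      z (n + 1 + j) * y 0 + ∑ i : Fin m, (if (i : ℕ) ≤ n + j then z (n + j - i) else 0) *
        y ((i : ℕ) + 1) := by
  have h0 : ∑ p ∈ Finset.HasAntidiagonal.antidiagonal (n + 1 + (j : ℕ)), z p.1 * y p.2 =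
      ∑ i ∈ Finset.range (n + 1 + j + 1), z (n + 1 + j - i) * y i := by
    rw [← Finset.Nat.sum_antidiagonal_swap, Finset.Nat.sum_antidiagonal_eq_sum_range_succ_mk]
    rfl
  rw [h0, Finset.sum_range_succ', Nat.sub_zero, add_comm]
  congr 1
  rw [Fin.sum_univ_eq_sum_range (fun i => (if i ≤ n + (j : ℕ) then z (n + j - i) else 0) *
    y (i + 1)) m]
  have h1 : ∑ i ∈ Finset.range m, (if i ≤ n + (j : ℕ) then z (n + j - i) else 0) * y (i + 1) =
      ∑ i ∈ (Finset.range m).filter (fun i => i ≤ n + (j : ℕ)), z (n + 1 + j - (i + 1)) *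
        y (i + 1) := by
    rw [Finset.sum_filter]
    refine Finset.sum_congr rfl fun i _ => ?_
    split_ifs with h
    · have h2 : n + 1 + (j : ℕ) - (i + 1) = n + j - i := by omega
      rw [h2]
    · rw [zero_mul]
  rw [h1]
  symm
  refine Finset.sum_subset ?_ ?_
  · intro i hi
    rw [Finset.mem_filter, Finset.mem_range] at hi
    rw [Finset.mem_range]
    omega
  · intro i hi hi2
    rw [Finset.mem_filter, Finset.mem_range] at hi2
    rw [Finset.mem_range] at hi
    rw [hy (i + 1) (by omega), mul_zero]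

theorem toep {A K : Type} [CommRing A] [Field K] (φ : A →+* K) (R : Subring A) (m n : ℕ)
    (ea eb z : ℕ → A) (hz : ∀ k, z k ∈ R) (ha0 : ea 0 = 1) (ha : ∀ k, m < k → ea k = 0)
    (hb0 : eb 0 = 1) (hb : ∀ k, n < k → eb k = 0)
    (hco : ∀ k, ∑ p ∈ Finset.HasAntidiagonal.antidiagonal k, z p.1 * ea p.2 = eb k)
    (hφa : ∀ k, φ (ea k) = ((1 - X : K[X]) ^ m).coeff k) (hφb : ∀ k, 1 ≤ k → φ (eb k) = 0) :
    ∃ h ∈ R, φ h ≠ 0 ∧ (∀ k, h * ea k ∈ R) ∧ ∀ k, h * eb k ∈ R := by
  obtain ⟨H, hH⟩ : ∃ H : Matrix (Fin m) (Fin m) A,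
      H = Matrix.of fun (j i : Fin m) => if (i : ℕ) ≤ n + (j : ℕ) then z (n + (j : ℕ) - (i : ℕ))
        else 0 := ⟨_, rfl⟩
  obtain ⟨HR, hHR⟩ : ∃ HR : Matrix (Fin m) (Fin m) R, R.subtype.mapMatrix HR = H := by
    refine ⟨Matrix.of fun (j i : Fin m) => if (i : ℕ) ≤ n + (j : ℕ) then
      ⟨z (n + (j : ℕ) - (i : ℕ)), hz _⟩ else 0, ?_⟩
    rw [hH]
    ext j i
    rw [RingHom.mapMatrix_apply, Matrix.map_apply, Matrix.of_apply, Matrix.of_apply]
    split_ifs
    · rfl
    · exact map_zero _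
  have hdet : H.det ∈ R := by
    rw [← hHR, ← RingHom.map_det]
    exact (HR.det).2
  have hadj : ∀ i j, H.adjugate i j ∈ R := by
    intro i j
    rw [← hHR, ← RingHom.map_adjugate]
    exact (HR.adjugate i j).2
  have hsys : ∀ j : Fin m, ∑ i : Fin m, H j i * ea ((i : ℕ) + 1) = -z (n + 1 + j) := by
    intro j
    have h1 := conv z ea m n ha j
    rw [hco, hb _ (by omega), ha0, mul_one] at h1
    rw [hH]
    simp only [Matrix.of_apply]
    linear_combination -h1
  have hcr : ∀ i : Fin m, H.det * ea ((i : ℕ) + 1) ∈ R := by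
    intro i
    have h1 : H.adjugate.mulVec (H.mulVec fun i : Fin m => ea ((i : ℕ) + 1)) i =
        H.det * ea ((i : ℕ) + 1) := by
      rw [Matrix.mulVec_mulVec, Matrix.adjugate_mul, Matrix.smul_mulVec, Matrix.one_mulVec]
      rfl
    rw [← h1]
    show ∑ j, H.adjugate i j * (∑ i : Fin m, H j i * ea ((i : ℕ) + 1)) ∈ R
    refine R.sum_mem fun j _ => R.mul_mem (hadj i j) ?_
    rw [hsys]
    exact R.neg_mem (hz _)
  have hea : ∀ k, H.det * ea k ∈ R := by
    intro k
    rcases Nat.eq_zero_or_pos k with h0 | h0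
    · rw [h0, ha0, mul_one]
      exact hdet
    · rcases le_or_gt k m with h1 | h1
      · have h2 := hcr ⟨k - 1, by omega⟩
        simp only at h2
        rw [Nat.sub_add_cancel h0] at h2
        exact h2
      · rw [ha k h1, mul_zero]
        exact R.zero_mem
  have heb : ∀ k, H.det * eb k ∈ R := by
    intro k
    rw [← hco, Finset.mul_sum]
    refine R.sum_mem fun p _ => ?_
    have h1 : H.det * (z p.1 * ea p.2) = z p.1 * (H.det * ea p.2) := by ring
    rw [h1]
    exact R.mul_mem (hz _) (hea _)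
  refine ⟨H.det, hdet, ?_, hea, heb⟩
  -- non-vanishing
  intro h0
  have h1 : (H.map φ).det = 0 := by
    rw [← RingHom.mapMatrix_apply, ← RingHom.map_det]
    exact h0
  obtain ⟨v, hv0, hv⟩ := Matrix.exists_mulVec_eq_zero_iff.2 h1
  apply hv0
  obtain ⟨y, hy⟩ : ∃ y : ℕ → K, y = fun k => if h : 1 ≤ k ∧ k ≤ m then v ⟨k - 1, by omega⟩ else 0 :=
    ⟨_, rfl⟩
  have hy0 : y 0 = 0 := by
    rw [hy]
    simp only
    rw [dif_neg (by omega)]
  have hym : ∀ k, m < k → y k = 0 := by
    intro k hk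
    rw [hy]
    simp only
    rw [dif_neg (by omega)]
  have hyv : ∀ i : Fin m, y ((i : ℕ) + 1) = v i := by
    intro i
    rw [hy]
    simp only
    rw [dif_pos (by omega)]
    rfl
  obtain ⟨Y, hY⟩ : ∃ Y : K[X], ∀ k, Y.coeff k = y k := by
    refine ⟨∑ i ∈ Finset.range (m + 1), monomial i (y i), fun k => ?_⟩
    rw [finsetSum_coeff]
    simp only [coeff_monomial]
    rw [Finset.sum_ite_eq' (Finset.range (m + 1)) k]
    by_cases hk : k ∈ Finset.range (m + 1)
    · rw [if_pos hk]
    · rw [if_neg hk, hym]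
      rw [Finset.mem_range] at hk
      omega
  obtain ⟨Z, hZ⟩ : ∃ Z : PowerSeries K, Z = PowerSeries.mk fun k => φ (z k) := ⟨_, rfl⟩
  have hφb0 : φ (eb 0) = 1 := by rw [hb0, map_one]
  have hZX : Z * (((1 - X : K[X]) ^ m : K[X]) : PowerSeries K) = 1 := by
    ext k
    rw [PowerSeries.coeff_mul, PowerSeries.coeff_one]
    have h2 : ∑ p ∈ Finset.HasAntidiagonal.antidiagonal k, PowerSeries.coeff p.1 Z *
        PowerSeries.coeff p.2 (((1 - X : K[X]) ^ m : K[X]) : PowerSeries K) = φ (eb k) := by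
      rw [← hco, map_sum]
      refine Finset.sum_congr rfl fun p _ => ?_
      rw [hZ, PowerSeries.coeff_mk, coeff_coe, map_mul, hφa]
    rw [h2]
    split_ifs with h3
    · rw [h3, hφb0]
    · exact hφb k (by omega)
  have hZY : ∀ k, n < k → k ≤ n + m → PowerSeries.coeff k (Z * (Y : PowerSeries K)) = 0 := by
    intro k hk1 hk2
    rw [PowerSeries.coeff_mul]
    have h2 := conv (fun k => φ (z k)) y m n hym ⟨k - (n + 1), by omega⟩
    simp only at h2
    have h3 : n + 1 + (k - (n + 1)) = k := by omega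
    rw [h3, hy0, mul_zero, zero_add] at h2
    have h4 : ∑ p ∈ Finset.HasAntidiagonal.antidiagonal k, PowerSeries.coeff p.1 Z *
        PowerSeries.coeff p.2 (Y : PowerSeries K) =
        ∑ p ∈ Finset.HasAntidiagonal.antidiagonal k, φ (z p.1) * y p.2 := by
      refine Finset.sum_congr rfl fun p _ => ?_
      rw [hZ, PowerSeries.coeff_mk, coeff_coe, hY]
    rw [h4, h2]
    have h5 := congrFun hv ⟨k - (n + 1), by omega⟩
    rw [Pi.zero_apply] at h5
    refine Eq.trans ?_ h5
    show _ = ∑ i : Fin m, (H.map φ) ⟨k - (n + 1), by omega⟩ i * v i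
    refine Finset.sum_congr rfl fun i _ => ?_
    rw [hyv, Matrix.map_apply, hH, Matrix.of_apply]
    simp only
    split_ifs
    · rfl
    · rw [map_zero]
  obtain ⟨G, hG⟩ : ∃ G : K[X], ∀ k, G.coeff k =
      if k < n + 1 then PowerSeries.coeff k (Z * (Y : PowerSeries K)) else 0 :=
    ⟨PowerSeries.trunc (n + 1) (Z * (Y : PowerSeries K)), fun k => PowerSeries.coeff_trunc _ _ _⟩
  have hdX : ((1 - X : K[X]) ^ m).natDegree = m := by
    have h2 : (1 - X : K[X]).natDegree = 1 := by
      have h3 : (1 - X : K[X]) = -(X - C 1) := by rw [C_1]; ring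
      rw [h3, natDegree_neg, natDegree_X_sub_C]
    rw [natDegree_pow, h2, mul_one]
  have hGY : (1 - X : K[X]) ^ m * G = Y := by
    ext k
    rw [coeff_mul]
    by_cases hk : k ≤ n + m
    · have h2 : (((1 - X : K[X]) ^ m : K[X]) : PowerSeries K) * (Z * (Y : PowerSeries K)) =
          (Y : PowerSeries K) := by
        linear_combination (Y : PowerSeries K) * hZX
      have h3 := congrArg (PowerSeries.coeff k) h2
      rw [coeff_coe, PowerSeries.coeff_mul] at h3
      rw [← h3]
      refine Finset.sum_congr rfl fun p hp => ?_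
      rw [Finset.HasAntidiagonal.mem_antidiagonal] at hp
      rw [coeff_coe, hG]
      split_ifs with h4
      · rfl
      · rw [hZY p.2 (by omega) (by omega)]
    · rw [hY, hym k (by omega)]
      refine Finset.sum_eq_zero fun p hp => ?_
      rw [Finset.HasAntidiagonal.mem_antidiagonal] at hp
      by_cases h4 : m < p.1
      · rw [coeff_eq_zero_of_natDegree_lt (by rw [hdX]; exact h4), zero_mul]
      · rw [hG, if_neg (by omega), mul_zero]
  have hG0 : G = 0 := by
    by_contra hne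
    have h2 : ((1 - X : K[X]) ^ m) ≠ 0 := by
      apply pow_ne_zero
      intro h
      have h3 := congrArg (fun P : K[X] => P.coeff 0) h
      simp at h3
    have h3 := natDegree_mul h2 hne
    rw [hGY, hdX] at h3
    have h4 : Y.natDegree ≤ m := by
      rw [natDegree_le_iff_coeff_eq_zero]
      intro N hN
      rw [hY, hym N hN]
    have h5 : G.natDegree = 0 := by omega
    have h6 := eq_C_of_natDegree_eq_zero h5
    have h7 := congrArg (eval 0) hGY
    rw [eval_mul, eval_pow, eval_sub, eval_one, eval_X, sub_zero, one_pow, one_mul,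
      ← coeff_zero_eq_eval_zero, ← coeff_zero_eq_eval_zero, hY, hy0] at h7
    rw [h7, C_0] at h6
    exact hne h6
  rw [hG0, mul_zero] at hGY
  ext i
  rw [← hyv, ← hY, ← hGY, coeff_zero]
  rfl

end Pool.Agent.H97.QC
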