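import Pool.Agent.H97.QC.NW
import Pool.Agent.H97.QC.TP

/-!
# The key lemma
-/

set_option autoImplicit false

open Polynomial

namespace Pool.Agent.H97.QC

theorem reflect_eq {A : Type} [CommRing A] [Nontrivial A] {m : ℕ} (M : Matrix (Fin m) (Fin m) A) :
    reflect m M.charpoly = M.charpolyRev := by
  have h2 := M.charpoly_natDegree_eq_dim
  rw [Fintype.card_fin] at h2
  rw [← M.reverse_charpoly]
  unfold reverse
  rw [h2]

theorem ec_one {K : Type} [Field K] (m k : ℕ) :
    ec (1 : Matrix (Fin m) (Fin m) K) k = ((1 - X : K[X]) ^ m).coeff k := by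
  unfold ec
  rw [reflect_eq]
  congr 1
  unfold Matrix.charpolyRev
  have h1 : (1 : Matrix (Fin m) (Fin m) K[X]) - (X : K[X]) • (1 : Matrix (Fin m) (Fin m) K).map C =
      (1 - X : K[X]) • (1 : Matrix (Fin m) (Fin m) K[X]) := by
    rw [sub_smul, one_smul]
    congr 2
    exact Matrix.map_one _ C_0 C_1
  rw [h1, Matrix.det_smul, Matrix.det_one, mul_one, Fintype.card_fin]

theorem ec_null {K : Type} [Field K] (m k : ℕ) (hk : 1 ≤ k) :
    ec (0 : Matrix (Fin m) (Fin m) K) k = 0 := by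
  unfold ec
  rw [reflect_eq]
  unfold Matrix.charpolyRev
  have h1 : (1 : Matrix (Fin m) (Fin m) K[X]) - (X : K[X]) • (0 : Matrix (Fin m) (Fin m) K).map C =
      1 := by
    have h2 : (0 : Matrix (Fin m) (Fin m) K).map C = 0 := Matrix.map_zero _ C_0
    rw [h2, smul_zero, sub_zero]
  rw [h1, Matrix.det_one, coeff_one, if_neg (by omega)]

theorem trace_aeval {A : Type} [CommRing A] {m : ℕ} (M : Matrix (Fin m) (Fin m) A) (p : A[X])
    (r : ℕ) (hr : p.natDegree < r) :
    (aeval M p).trace = ∑ i ∈ Finset.range r, p.coeff i * (M ^ i).trace := by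
  rw [aeval_eq_sum_range' hr, Matrix.trace_sum]
  refine Finset.sum_congr rfl fun i _ => ?_
  rw [Matrix.trace_smul, smul_eq_mul]

theorem map_aeval {A B : Type} [CommRing A] [CommRing B] (φ : A →+* B) {m : ℕ}
    (M : Matrix (Fin m) (Fin m) A) (p : A[X]) :
    (aeval M p).map φ = aeval (M.map φ) (p.map φ) := by
  induction p using Polynomial.induction_on' with
  | add p q hp hq =>
    rw [map_add, Polynomial.map_add, map_add, ← hp, ← hq]
    exact Matrix.map_add φ (map_add φ) _ _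
  | monomial i a =>
    rw [aeval_monomial, map_monomial, aeval_monomial]
    have h1 : (M.map φ) ^ i = (M ^ i).map φ := by
      rw [← RingHom.mapMatrix_apply, ← RingHom.mapMatrix_apply, map_pow]
    rw [h1, ← Algebra.smul_def, ← Algebra.smul_def]
    ext x y
    rw [Matrix.map_apply, Matrix.smul_apply, Matrix.smul_apply, Matrix.map_apply, smul_eq_mul,
      smul_eq_mul, map_mul]

/-- **Key lemma.** -/
theorem key {A K : Type} [CommRing A] [IsDomain A] [Field K] (φ : A →+* K) (R : Subring A)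
    (hdiv : ∀ (k : ℕ) (a : A), k ≠ 0 → (k : A) * a ∈ R → a ∈ R) {m n : ℕ}
    (M : Matrix (Fin m) (Fin m) A) (N : Matrix (Fin n) (Fin n) A)
    (htr : ∀ k : ℕ, 1 ≤ k → (M ^ k).trace - (N ^ k).trace ∈ R)
    (hM : M.map φ = 1) (hN : N.map φ = 0) :
    ∃ (q : A[X]) (c : A), (∀ i, q.coeff i ∈ R) ∧ c ∈ R ∧ φ c ≠ 0 ∧ aeval M q = c • 1 ∧
      aeval N q = 0 := by
  obtain ⟨z, hz, hco⟩ := quot R hdiv M N htr
  obtain ⟨h, hhR, hh0, -, hhN⟩ := toep φ R m n (ec M) (ec N) z hz (ec_zero M) (ec_gt M) (ec_zero N)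
    (ec_gt N) hco (fun k => by rw [← ec_map, hM, ec_one])
    (fun k hk => by rw [← ec_map, hN, ec_null n k hk])
  have hrange : ∀ p : A[X], (∀ i, p.coeff i ∈ R) → ∃ p' : R[X], p'.map R.subtype = p := by
    intro p hp
    have h1 : p ∈ (mapRingHom R.subtype).range := by
      rw [mem_map_range]
      intro i
      exact ⟨⟨p.coeff i, hp i⟩, rfl⟩
    obtain ⟨p', hp'⟩ := h1
    exact ⟨p', hp'⟩
  obtain ⟨q0, hq0⟩ : ∃ q0 : A[X], q0 = C h * N.charpoly := ⟨_, rfl⟩
  have hq0R : ∀ i, q0.coeff i ∈ R := by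
    intro i
    rw [hq0, coeff_C_mul]
    rcases le_or_gt i n with h1 | h1
    · rw [charpoly_coeff N i h1]
      exact hhN _
    · rw [charpoly_coeff_gt N i h1, mul_zero]
      exact R.zero_mem
  have hNq0 : aeval N q0 = 0 := by
    rw [hq0, map_mul, N.aeval_self_charpoly, mul_zero]
  obtain ⟨B, hB⟩ : ∃ B, B = aeval M q0 := ⟨_, rfl⟩
  have hBφ : B.map φ = φ h • (1 : Matrix (Fin m) (Fin m) K) := by
    rw [hB, map_aeval, hM, hq0, Polynomial.map_mul, map_C, ← Matrix.charpoly_map, hN,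
      Matrix.charpoly_zero, map_mul, aeval_C, map_pow, aeval_X, one_pow, mul_one,
      Algebra.algebraMap_eq_smul_one]
  have hBdet : φ B.det ≠ 0 := by
    have h1 : φ B.det = (B.map φ).det := by
      rw [← RingHom.mapMatrix_apply, ← RingHom.map_det]
    rw [h1, hBφ, Matrix.det_smul, Matrix.det_one, mul_one]
    exact pow_ne_zero _ hh0
  have hBtr : ∀ k : ℕ, 1 ≤ k → (B ^ k).trace ∈ R := by
    intro k hk
    have h1 : (B ^ k).trace = (aeval M (q0 ^ k)).trace - (aeval N (q0 ^ k)).trace := by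
      rw [map_pow, map_pow, hNq0, ← hB, zero_pow (by omega), Matrix.trace_zero, sub_zero]
    rw [h1, trace_aeval M _ _ (Nat.lt_succ_self _), trace_aeval N _ _ (Nat.lt_succ_self _),
      ← Finset.sum_sub_distrib]
    refine R.sum_mem fun i _ => ?_
    rw [← mul_sub]
    refine R.mul_mem ?_ ?_
    · obtain ⟨q', hq'⟩ := hrange q0 hq0R
      rw [← hq', ← Polynomial.map_pow, coeff_map]
      exact ((q' ^ k).coeff i).2
    · rcases Nat.eq_zero_or_pos i with h0 | h0
      · rw [h0, pow_zero, pow_zero, Matrix.trace_one, Matrix.trace_one]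
        exact R.sub_mem (natCast_mem R _) (natCast_mem R _)
      · exact htr i h0
  have hχ : ∀ i, B.charpoly.coeff i ∈ R := charpoly_mem R hdiv B hBtr
  obtain ⟨g, hg⟩ : ∃ g : A[X], g = B.charpoly.divX := ⟨_, rfl⟩
  have hgX : g * X + C (B.charpoly.coeff 0) = B.charpoly := by
    rw [hg, divX_mul_X_add]
  have hgR : ∀ i, g.coeff i ∈ R := by
    intro i
    rw [hg, coeff_divX]
    exact hχ _
  have hCH := B.aeval_self_charpoly
  rw [← hgX, map_add, map_mul, aeval_X, aeval_C, Algebra.algebraMap_eq_smul_one] at hCH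
  refine ⟨-(g.comp q0 * q0), B.charpoly.coeff 0, ?_, hχ 0, ?_, ?_, ?_⟩
  · obtain ⟨q', hq'⟩ := hrange q0 hq0R
    obtain ⟨g', hg'⟩ := hrange g hgR
    intro i
    rw [← hq', ← hg', ← map_comp, ← Polynomial.map_mul, ← Polynomial.map_neg, coeff_map]
    exact ((-(g'.comp q' * q')).coeff i).2
  · intro h0
    apply hBdet
    rw [Matrix.det_eq_sign_charpoly_coeff, map_mul, h0, mul_zero]
  · rw [map_neg, map_mul, aeval_comp, ← hB]
    exact neg_eq_of_add_eq_zero_right hCH
  · rw [map_neg, map_mul, hNq0, mul_zero, neg_zero]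

end Pool.Agent.H97.QC
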