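import Pool.Agent.H97.QC.Fin

/-!
# The main theorem
-/

set_option autoImplicit false

open Polynomial

namespace Pool.Agent.H97.QC

section

variable {K : Type} [Field K] [CharZero K] {m n : ℕ} {J : Type} [Fintype J]

/-- from a combination of values to an algebraic class -/
theorem span_to {W : Maps K m n J} (hW : W.Closed) (T : Tensors K J)
    (h : evenProj K m n ∈ Submodule.span K (values W T)) :
    Quotient W T := by
  classical
  rw [Submodule.mem_span_set'] at h
  obtain ⟨r, c, g, hsum⟩ := h
  have hg : ∀ i, ∃ (s : ℕ) (a : (Fin s → J) → End2 K m n) (w : (Fin s → J) → K), a ∈ W.cor s ∧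
    w ∈ T.mem s ∧ (g i : End2 K m n) = ∑ j, w j • a j := fun i => (g i).2
  choose S a w ha hw hgi using hg
  have ha' : ∀ i, a i ∈ (toTS hW).cor (Fin (S i)) := by
    intro i
    rw [mem_toTS_cor]
    exact fun N e => reind_cor hW (Equiv.refl _) (ha i) N e
  have hsum' : ∑ i, ∑ j, (fun (i : Fin r) (j : Fin (S i) → J) => c i * w i j) i j • a i j =
      evenProj K m n := by
    rw [← hsum]
    refine Finset.sum_congr rfl fun i _ => ?_
    rw [hgi, Finset.smul_sum]
    refine Finset.sum_congr rfl fun j _ => ?_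
    rw [smul_smul]
  obtain ⟨D, u, f, hf, hne, hc⟩ := multiSlot (toTS hW) (Fin r) S
    (fun (i : Fin r) (j : Fin (S i) → J) => c i * w i j) a ha' hsum'
  obtain ⟨N, e, he⟩ := word_mem T D (fun x => S (u x)) (fun x => w (u x)) fun x => hw (u x)
  rw [mem_toTS_sca] at hf
  rw [mem_toTS_cor] at hc
  refine ⟨N, _, _, hf N e, he, ?_, hc N e⟩
  intro h0
  unfold pair at h0
  apply hne
  have h1 : ∀ j : (Σ x : Fin D, Fin (S (u x))) → J,
      f j * ∏ x : Fin D, (c (u x) * w (u x) (fun b => j ⟨x, b⟩)) =
      (∏ x : Fin D, c (u x)) * (f j * ∏ x : Fin D, w (u x) (fun b => j ⟨x, b⟩)) := by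
    intro j
    rw [Finset.prod_mul_distrib]
    ring
  rw [Finset.sum_congr rfl fun j _ => h1 j, ← Finset.mul_sum]
  have h2 : ∑ j : (Σ x : Fin D, Fin (S (u x))) → J,
      f j * ∏ x : Fin D, w (u x) (fun b => j ⟨x, b⟩) =
      ∑ j : Fin N → J, f (fun x => j (e.symm x)) *
        ∏ a : Fin D, w (u a) (fun b => j (e.symm ⟨a, b⟩)) := by
    symm
    refine Fintype.sum_equiv (Equiv.arrowCongr e (Equiv.refl J)) _ _ ?_
    intro j
    have h3 : (Equiv.arrowCongr e (Equiv.refl J)) j = fun x => j (e.symm x) := by
      ext x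
      simp [Equiv.arrowCongr]
    rw [h3]
  rw [h2, h0, mul_zero]

theorem of_class (W : Maps K m n J) (T : Tensors K J)
    (h : Quotient W T) : evenProj K m n ∈ Submodule.span K (values W T) := by
  obtain ⟨s, f, w, -, hw, hne, hc⟩ := h
  unfold pair at hne
  have h1 : ∑ j, w j • (f j • evenProj K m n) ∈ Submodule.span K (values W T) :=
    Submodule.subset_span ⟨s, _, w, hc, hw, rfl⟩
  have h2 : ∑ j, w j • (f j • evenProj K m n) = (∑ j, f j * w j) • evenProj K m n := by
    rw [Finset.sum_smul]
    refine Finset.sum_congr rfl fun j _ => ?_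
    rw [smul_smul, mul_comm]
  rw [h2] at h1
  have h3 := Submodule.smul_mem _ (∑ j, f j * w j)⁻¹ h1
  rw [smul_smul, inv_mul_cancel₀ hne, one_smul] at h3
  exact h3

theorem coprime_even (K : Type) [Field K] (m n : ℕ) :
    IsCoprime (evenProj K m n).1.charpoly (evenProj K m n).2.charpoly := by
  unfold evenProj
  simp only
  rw [Matrix.charpoly_one, Matrix.charpoly_zero]
  apply IsCoprime.pow
  have h1 : IsCoprime (X - C (1 : K)) (X - C (0 : K)) :=
    isCoprime_X_sub_C_of_isUnit_sub (by rw [sub_zero]; exact isUnit_one)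
  rw [C_1, C_0, sub_zero] at h1
  exact h1

theorem of_coprime (R : Subalgebra K (End2 K m n)) (x : End2 K m n) (hx : x ∈ R)
    (hcop : IsCoprime x.1.charpoly x.2.charpoly) : evenProj K m n ∈ R := by
  obtain ⟨u, v, huv⟩ := hcop
  have h1 : aeval x (v * x.2.charpoly) ∈ R := by
    have h2 : Algebra.adjoin K {x} ≤ R := Algebra.adjoin_le (Set.singleton_subset_iff.2 hx)
    exact h2 (aeval_mem_adjoin_singleton K x)
  have h3 : evenProj K m n = aeval x (v * x.2.charpoly) := by
    refine Prod.ext ?_ ?_
    · have h4 : (aeval x (v * x.2.charpoly)).1 = aeval x.1 (v * x.2.charpoly) :=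
        (aeval_algHom_apply (AlgHom.fst K (Matrix (Fin m) (Fin m) K) (Matrix (Fin n) (Fin n) K)) x
          (v * x.2.charpoly)).symm
      have h5 : v * x.2.charpoly = 1 - u * x.1.charpoly := by
        rw [← huv]
        ring
      rw [h4, h5, map_sub, map_one, map_mul, x.1.aeval_self_charpoly, mul_zero, sub_zero]
      rfl
    · have h4 : (aeval x (v * x.2.charpoly)).2 = aeval x.2 (v * x.2.charpoly) :=
        (aeval_algHom_apply (AlgHom.snd K (Matrix (Fin m) (Fin m) K) (Matrix (Fin n) (Fin n) K)) x
          (v * x.2.charpoly)).symm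
      rw [h4, map_mul, x.2.aeval_self_charpoly, mul_zero]
      rfl
  rw [h3]
  exact h1

theorem of_stable (V : Set (End2 K m n))
    (h : ∀ G : Submodule K ((Fin m → K) × (Fin n → K)), (∀ x ∈ V, ∀ v ∈ G,
      (x.1.mulVec v.1, x.2.mulVec v.2) ∈ G) → ∀ v ∈ G, (v.1, 0) ∈ G) :
    evenProj K m n ∈ Algebra.adjoin K V := by
  obtain ⟨pr, hpr⟩ : ∃ pr : ((Fin m → K) × (Fin n → K)) →ₗ[K] (∀ b : Bool, Fin (cond b m n) → K),
      ∀ v, pr v = fun b => match b with
        | true => v.1
        | false => v.2 := by
    refine ⟨LinearMap.pi fun b => match b with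
        | true => LinearMap.fst K (Fin m → K) (Fin n → K)
        | false => LinearMap.snd K (Fin m → K) (Fin n → K), fun v => ?_⟩
    funext b
    cases b <;> rfl
  obtain ⟨act, hact⟩ : ∃ act : Algebra.adjoin K V →ₐ[K]
      (∀ b : Bool, Module.End K (Fin (cond b m n) → K)), ∀ x, act x = fun b => match b with
        | true => Matrix.toLin' x.1.1
        | false => Matrix.toLin' x.1.2 := by
    refine ⟨Pi.algHom K _ fun b => match b with
        | true => ((Matrix.toLinAlgEquiv' : Matrix (Fin m) (Fin m) K ≃ₐ[K] _).toAlgHom.comp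
            (AlgHom.fst K _ _)).comp (Algebra.adjoin K V).val
        | false => ((Matrix.toLinAlgEquiv' : Matrix (Fin n) (Fin n) K ≃ₐ[K] _).toAlgHom.comp
            (AlgHom.snd K _ _)).comp (Algebra.adjoin K V).val, fun x => ?_⟩
    funext b
    cases b <;> rfl
  have hgoo := Pool.Agent.H4.CS.goo K Bool (fun b => Fin (cond b m n) → K) (fun b => b = true)
    (Algebra.adjoin K V) act.toRingHom (by
      intro G hG x hx
      have h1 := h (G.comap pr) (by
        intro y hy v hv
        rw [Submodule.mem_comap] at hv ⊢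
        have h2 := hG ⟨y, Algebra.subset_adjoin hy⟩ _ hv
        have h3 : (fun i => act.toRingHom ⟨y, Algebra.subset_adjoin hy⟩ i (pr v i)) =
            pr (y.1.mulVec v.1, y.2.mulVec v.2) := by
          funext i
          show act ⟨y, Algebra.subset_adjoin hy⟩ i (pr v i) = _
          rw [hact, hpr, hpr]
          cases i
          · exact Matrix.toLin'_apply _ _
          · exact Matrix.toLin'_apply _ _
        rw [h3] at h2
        exact h2) (x true, x false) (by
          rw [Submodule.mem_comap, hpr]
          have h4 : (fun b => match b with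
            | true => x true
            | false => x false : ∀ b : Bool, Fin (cond b m n) → K) = x := by
            funext b
            cases b <;> rfl
          exact h4 ▸ hx)
      rw [Submodule.mem_comap, hpr] at h1
      have h5 : (fun b => match b with
            | true => x true
            | false => 0 : ∀ b : Bool, Fin (cond b m n) → K) =
          fun i => if i = true then x i else 0 := by
        funext b
        cases b
        · exact (if_neg (by simp)).symm
        · exact (if_pos rfl).symm
      rw [← h5]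
      exact h1)
  have h6 : (fun i : Bool => if i = true then (1 : Module.End K (Fin (cond i m n) → K)) else 0) ∈
      LinearMap.range act.toLinearMap := by
    refine Submodule.span_le.2 ?_ hgoo
    rintro _ ⟨r, rfl⟩
    exact ⟨r, rfl⟩
  obtain ⟨r, hr⟩ := h6
  have hr1 : act r true = 1 := by
    have h7 := congrFun hr true
    rw [if_pos rfl] at h7
    exact h7
  have hr2 : act r false = 0 := by
    have h7 := congrFun hr false
    rw [if_neg (by simp)] at h7
    exact h7
  rw [hact] at hr1 hr2
  have hr1' : Matrix.toLin' r.1.1 = 1 := hr1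
  have hr2' : Matrix.toLin' r.1.2 = 0 := hr2
  have h8 : evenProj K m n = r.1 := by
    refine Prod.ext ?_ ?_
    · refine (Matrix.toLin' (R := K)).injective ?_
      exact Matrix.toLin'_one.trans hr1'.symm
    · refine (Matrix.toLin' (R := K)).injective ?_
      exact (map_zero _).trans hr2'.symm
  rw [h8]
  exact r.2

theorem to_stable (V : Set (End2 K m n)) (hV : evenProj K m n ∈ Submodule.span K V)
    (G : Submodule K ((Fin m → K) × (Fin n → K))) (hG : ∀ x ∈ V, ∀ v ∈ G,
      (x.1.mulVec v.1, x.2.mulVec v.2) ∈ G) (v : (Fin m → K) × (Fin n → K)) (hv : v ∈ G) :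
    (v.1, 0) ∈ G := by
  have h1 : ∀ x ∈ Submodule.span K V, (x.1.mulVec v.1, x.2.mulVec v.2) ∈ G := by
    intro x hx
    induction hx using Submodule.span_induction with
    | mem x hx => exact hG x hx v hv
    | zero =>
      have h2 : ((0 : End2 K m n).1.mulVec v.1, (0 : End2 K m n).2.mulVec v.2) = 0 := by
        rw [Prod.fst_zero, Prod.snd_zero, Matrix.zero_mulVec, Matrix.zero_mulVec]
        rfl
      rw [h2]
      exact G.zero_mem
    | add x y _ _ h2 h3 =>
      have h4 := G.add_mem h2 h3
      rw [Prod.mk_add_mk, ← Matrix.add_mulVec, ← Matrix.add_mulVec] at h4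
      exact h4
    | smul c x _ h2 =>
      have h4 := G.smul_mem c h2
      rw [Prod.smul_mk, ← Matrix.smul_mulVec, ← Matrix.smul_mulVec] at h4
      exact h4
  have h2 := h1 _ hV
  have h3 : ((evenProj K m n).1.mulVec v.1, (evenProj K m n).2.mulVec v.2) = (v.1, 0) := by
    unfold evenProj
    rw [Matrix.one_mulVec, Matrix.zero_mulVec]
  rw [h3] at h2
  exact h2

/-- **The theorem.** -/
theorem main {W : Maps K m n J} (hW : W.Closed) (T : Tensors K J) : List.TFAE
    [evenProj K m n ∈ Algebra.adjoin K (values W T),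
     evenProj K m n ∈ Submodule.span K (values W T),
     ∃ x ∈ Algebra.adjoin K (values W T), IsCoprime x.1.charpoly x.2.charpoly,
     StableSplit (values W T),
     Quotient W T] := by
  tfae_have 1 ↔ 2 := adjoin_eq hW T _
  tfae_have 1 → 3 := fun h => ⟨_, h, coprime_even K m n⟩
  tfae_have 3 → 1 := fun ⟨x, hx, hc⟩ => of_coprime _ x hx hc
  tfae_have 2 → 4 := fun h G hG v hv => to_stable _ h G hG v hv
  tfae_have 4 → 1 := fun h => of_stable _ h
  tfae_have 2 → 5 := fun h => span_to hW T h
  tfae_have 5 → 2 := fun h => of_class W T h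
  tfae_finish

/-- **Numerical equivalence.** -/
theorem numer {W : Maps K m n J} (hW : W.Closed) (T : Tensors K J) (hT : HomNum W T) :
    Cplus W ↔ evenProj K m n ∈ Algebra.adjoin K (values W T) := by
  constructor
  · intro h
    refine Algebra.subset_adjoin ⟨0, _, _, h, T.one_mem, ?_⟩
    rw [Fintype.sum_unique, one_smul]
  · intro h
    obtain ⟨s, f, w, hf, hw, hne, hc⟩ := ((main hW T).out 0 4).1 h
    obtain ⟨v, hv, hfv⟩ := hT s f hf ⟨w, hw, hne⟩
    unfold pair at hfv
    obtain ⟨q, hq⟩ := hW.vec_sca _ _ hf _ hv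
    have h1 := hW.vec_cor _ _ hc _ hv
    have h2 : ∑ j, v j • (f j • evenProj K m n) = (q : K) • evenProj K m n := by
      rw [← hq, Finset.sum_smul]
      refine Finset.sum_congr rfl fun j _ => ?_
      rw [smul_smul, mul_comm]
    have hq0 : (q : K) ≠ 0 := by
      rw [← hq]
      exact hfv
    rw [h2] at h1
    have h3 := hW.linear.cor_rat _ q⁻¹ _ h1
    have h4 : (fun _ : Fin 0 → J => ((q⁻¹ : ℚ) : K) • (q : K) • evenProj K m n) =
        fun _ => evenProj K m n := by
      funext j
      rw [smul_smul, Rat.cast_inv, inv_mul_cancel₀ hq0, one_smul]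
    rw [h4] at h3
    exact h3

end

end Pool.Agent.H97.QC
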