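import Pool.Agent.H97.QC.Sys

/-!
# The theorem for one slot
-/

set_option autoImplicit false

open MvPolynomial

namespace Pool.Agent.H97.QC

section

variable {K : Type} [Field K] [CharZero K] {m n : ℕ} {J : Type} [Fintype J]

/-- polynomials of algebraic scalars -/
def S0 (W : TS K m n J) : Set (MvPolynomial J K) :=
  {P | ∃ (D : ℕ) (f : (Fin D → J) → K), f ∈ W.sca (Fin D) ∧ P = poly K J (Fin D) f}

/-- polynomials of algebraic correspondences -/
def C0 (W : TS K m n J) : Set (End2 (MvPolynomial J K) m n) :=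
  {P | ∃ (D : ℕ) (a : (Fin D → J) → End2 K m n), a ∈ W.cor (Fin D) ∧ P = PM K m n J (Fin D) a}

theorem S0_of {W : TS K m n J} {s : Type} [Fintype s] [DecidableEq s] {f : (s → J) → K}
    (hf : f ∈ W.sca s) : poly K J s f ∈ S0 W :=
  ⟨Fintype.card s, _, W.sca_re (Fintype.equivFin s) hf, (poly_reindex (Fintype.equivFin s) f).symm⟩

theorem C0_of {W : TS K m n J} {s : Type} [Fintype s] [DecidableEq s] {a : (s → J) → End2 K m n}
    (ha : a ∈ W.cor s) : PM K m n J s a ∈ C0 W :=
  ⟨Fintype.card s, _, W.cor_re (Fintype.equivFin s) ha, (PM_reindex (Fintype.equivFin s) a).symm⟩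

theorem S0_one (W : TS K m n J) : (1 : MvPolynomial J K) ∈ S0 W := by
  have h1 := S0_of W.sca_one
  rw [poly_empty, C_1] at h1
  exact h1

theorem C0_one (W : TS K m n J) : (1 : End2 (MvPolynomial J K) m n) ∈ C0 W := by
  have h1 := C0_of W.cor_one
  rw [PM_one] at h1
  exact h1

theorem S0_mul {W : TS K m n J} {P Q : MvPolynomial J K} (hP : P ∈ S0 W) (hQ : Q ∈ S0 W) :
    P * Q ∈ S0 W := by
  obtain ⟨D, f, hf, rfl⟩ := hP
  obtain ⟨D', g, hg, rfl⟩ := hQ
  rw [← poly_mul]
  exact S0_of (W.sca_mul hf hg)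

theorem C0_mul {W : TS K m n J} {P Q : End2 (MvPolynomial J K) m n} (hP : P ∈ C0 W)
    (hQ : Q ∈ C0 W) : P * Q ∈ C0 W := by
  obtain ⟨D, f, hf, rfl⟩ := hP
  obtain ⟨D', g, hg, rfl⟩ := hQ
  rw [← PM_mul]
  exact C0_of (W.cor_mul hf hg)

theorem C0_smul {W : TS K m n J} {P : MvPolynomial J K} {Q : End2 (MvPolynomial J K) m n}
    (hP : P ∈ S0 W) (hQ : Q ∈ C0 W) : P • Q ∈ C0 W := by
  obtain ⟨D, f, hf, rfl⟩ := hP
  obtain ⟨D', g, hg, rfl⟩ := hQ
  rw [← PM_smul]
  exact C0_of (W.sca_smul hf hg)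

theorem C0_str {W : TS K m n J} {Q : End2 (MvPolynomial J K) m n} (hQ : Q ∈ C0 W) :
    str Q ∈ S0 W := by
  obtain ⟨D', g, hg, rfl⟩ := hQ
  rw [PM_str]
  exact S0_of (W.str_mem hg)

theorem C0_pow {W : TS K m n J} {Q : End2 (MvPolynomial J K) m n} (hQ : Q ∈ C0 W) (k : ℕ) :
    Q ^ k ∈ C0 W := by
  induction k with
  | zero =>
    rw [pow_zero]
    exact C0_one W
  | succ k ih =>
    rw [pow_succ]
    exact C0_mul ih hQ

/-- the ring of polynomial invariants -/
noncomputable def RS (W : TS K m n J) : Subring (MvPolynomial J K) where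
  carrier := Submodule.span ℚ (S0 W)
  mul_mem' := by
    intro P Q hP hQ
    have h1 := Submodule.mul_mem_mul hP hQ
    rw [Submodule.span_mul_span] at h1
    refine Submodule.span_mono ?_ h1
    rintro _ ⟨P, hP, Q, hQ, rfl⟩
    exact S0_mul hP hQ
  one_mem' := Submodule.subset_span (S0_one W)
  add_mem' := fun hP hQ => Submodule.add_mem _ hP hQ
  zero_mem' := Submodule.zero_mem _
  neg_mem' := fun hP => Submodule.neg_mem _ hP

theorem mem_RS {W : TS K m n J} {P : MvPolynomial J K} :
    P ∈ RS W ↔ P ∈ Submodule.span ℚ (S0 W) := Iff.rfl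

theorem RS_div {W : TS K m n J} (k : ℕ) (P : MvPolynomial J K) (hk : k ≠ 0)
    (hP : (k : MvPolynomial J K) * P ∈ RS W) : P ∈ RS W := by
  rw [mem_RS] at hP ⊢
  have h1 : P = ((k : ℚ)⁻¹) • ((k : MvPolynomial J K) * P) := by
    have h2 : (k : MvPolynomial J K) * P = (k : ℚ) • P := by
      rw [Algebra.smul_def, map_natCast]
    have h3 : (k : ℚ) ≠ 0 := by exact_mod_cast hk
    rw [h2, smul_smul, inv_mul_cancel₀ h3, one_smul]
  rw [h1]
  exact Submodule.smul_mem _ _ hP

theorem smul_C0 {W : TS K m n J} {P : MvPolynomial J K} {Q : End2 (MvPolynomial J K) m n}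
    (hP : P ∈ RS W) (hQ : Q ∈ C0 W) : P • Q ∈ Submodule.span ℚ (C0 W) := by
  rw [mem_RS] at hP
  induction hP using Submodule.span_induction with
  | mem P hP => exact Submodule.subset_span (C0_smul hP hQ)
  | zero =>
    rw [zero_smul]
    exact Submodule.zero_mem _
  | add P P' _ _ h1 h2 =>
    rw [add_smul]
    exact Submodule.add_mem _ h1 h2
  | smul c P _ h1 =>
    rw [smul_assoc]
    exact Submodule.smul_mem _ _ h1

/-- homogeneous components of an algebraic combination -/
theorem comp_S0 {W : TS K m n J} (D : ℕ) {P : MvPolynomial J K} (hP : P ∈ Submodule.span ℚ (S0 W)) :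
    ∃ f ∈ W.sca (Fin D), homogeneousComponent D P = poly K J (Fin D) f := by
  induction hP using Submodule.span_induction with
  | mem P hP =>
    obtain ⟨D', f, hf, rfl⟩ := hP
    have h1 : poly K J (Fin D') f ∈ homogeneousSubmodule J K D' := by
      have h2 := poly_homogeneous f
      rw [Fintype.card_fin] at h2
      exact h2
    rw [homogeneousComponent_of_mem h1]
    by_cases hD : D = D'
    · subst hD
      exact ⟨f, hf, if_pos rfl⟩
    · exact ⟨0, Submodule.zero_mem _, by rw [if_neg hD, map_zero]⟩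
  | zero => exact ⟨0, Submodule.zero_mem _, by rw [map_zero, map_zero]⟩
  | add P P' _ _ h1 h2 =>
    obtain ⟨f, hf, h3⟩ := h1
    obtain ⟨g, hg, h4⟩ := h2
    exact ⟨f + g, Submodule.add_mem _ hf hg, by rw [map_add, map_add, h3, h4]⟩
  | smul c P _ h1 =>
    obtain ⟨f, hf, h3⟩ := h1
    refine ⟨c • f, Submodule.smul_mem _ _ hf, ?_⟩
    have h5 : c • f = (c : K) • f := by
      funext j
      rw [Pi.smul_apply, Pi.smul_apply, Rat.smul_def, smul_eq_mul]
    have h6 : c • P = (c : K) • P := (Rat.cast_smul_eq_qsmul K c P).symm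
    rw [h5, h6, map_smul, map_smul, h3]

theorem comp_C0 {W : TS K m n J} (D : ℕ) {Q : End2 (MvPolynomial J K) m n}
    (hQ : Q ∈ Submodule.span ℚ (C0 W)) :
    ∃ a ∈ W.cor (Fin D), (∀ p q, homogeneousComponent D (Q.1 p q) =
      poly K J (Fin D) fun j => (a j).1 p q) ∧ ∀ p q, homogeneousComponent D (Q.2 p q) =
      poly K J (Fin D) fun j => (a j).2 p q := by
  have hz : ∀ p q, (poly K J (Fin D) fun j => ((0 : (Fin D → J) → End2 K m n) j).1 p q) = 0 :=
    fun p q => map_zero (poly K J (Fin D))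
  have hz2 : ∀ p q, (poly K J (Fin D) fun j => ((0 : (Fin D → J) → End2 K m n) j).2 p q) = 0 :=
    fun p q => map_zero (poly K J (Fin D))
  induction hQ using Submodule.span_induction with
  | mem Q hQ =>
    obtain ⟨D', a, ha, rfl⟩ := hQ
    have h1 : ∀ f, poly K J (Fin D') f ∈ homogeneousSubmodule J K D' := by
      intro f
      have h2 := poly_homogeneous f
      rw [Fintype.card_fin] at h2
      exact h2
    by_cases hD : D = D'
    · subst hD
      refine ⟨a, ha, fun p q => ?_, fun p q => ?_⟩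
      · rw [PM_fst, homogeneousComponent_of_mem (h1 _), if_pos rfl]
      · rw [PM_snd, homogeneousComponent_of_mem (h1 _), if_pos rfl]
    · refine ⟨0, Submodule.zero_mem _, fun p q => ?_, fun p q => ?_⟩
      · rw [PM_fst, homogeneousComponent_of_mem (h1 _), if_neg hD, hz]
      · rw [PM_snd, homogeneousComponent_of_mem (h1 _), if_neg hD, hz2]
  | zero =>
    refine ⟨0, Submodule.zero_mem _, fun p q => ?_, fun p q => ?_⟩
    · rw [hz]
      exact map_zero _
    · rw [hz2]
      exact map_zero _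
  | add P P' _ _ h1 h2 =>
    obtain ⟨f, hf, h3, h3'⟩ := h1
    obtain ⟨g, hg, h4, h4'⟩ := h2
    refine ⟨f + g, Submodule.add_mem _ hf hg, fun p q => ?_, fun p q => ?_⟩
    · have h5 : (P + P').1 p q = P.1 p q + P'.1 p q := rfl
      have h6 : (fun j => ((f + g) j).1 p q) = (fun j => (f j).1 p q) + fun j => (g j).1 p q := rfl
      rw [h5, h6, map_add, map_add, h3, h4]
    · have h5 : (P + P').2 p q = P.2 p q + P'.2 p q := rfl
      have h6 : (fun j => ((f + g) j).2 p q) = (fun j => (f j).2 p q) + fun j => (g j).2 p q := rfl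
      rw [h5, h6, map_add, map_add, h3', h4']
  | smul c P _ h1 =>
    obtain ⟨f, hf, h3, h3'⟩ := h1
    refine ⟨c • f, Submodule.smul_mem _ _ hf, fun p q => ?_, fun p q => ?_⟩
    · have h5 : (c • P).1 p q = (c : K) • (P.1 p q) := by
        rw [Prod.smul_fst, Matrix.smul_apply]
        exact (Rat.cast_smul_eq_qsmul K c (P.1 p q)).symm
      have h6 : (fun j => ((c • f) j).1 p q) = (c : K) • fun j => (f j).1 p q := by
        funext j
        rw [Pi.smul_apply, Prod.smul_fst, Matrix.smul_apply, Pi.smul_apply, Rat.smul_def,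
          smul_eq_mul]
      rw [h5, h6, map_smul, map_smul, h3]
    · have h5 : (c • P).2 p q = (c : K) • (P.2 p q) := by
        rw [Prod.smul_snd, Matrix.smul_apply]
        exact (Rat.cast_smul_eq_qsmul K c (P.2 p q)).symm
      have h6 : (fun j => ((c • f) j).2 p q) = (c : K) • fun j => (f j).2 p q := by
        funext j
        rw [Pi.smul_apply, Prod.smul_snd, Matrix.smul_apply, Pi.smul_apply, Rat.smul_def,
          smul_eq_mul]
      rw [h5, h6, map_smul, map_smul, h3']

/-- **One slot.** -/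
theorem oneSlot (W : TS K m n J) (a : (Fin 1 → J) → End2 K m n) (ha : a ∈ W.cor (Fin 1))
    (w : J → K) (hw : ∑ j : Fin 1 → J, (∏ i, w (j i)) • a j = evenProj K m n) :
    ∃ (D : ℕ) (f : (Fin D → J) → K), f ∈ W.sca (Fin D) ∧ ∑ j, f j * ∏ i, w (j i) ≠ 0 ∧
      (fun j => f j • evenProj K m n) ∈ W.cor (Fin D) := by
  classical
  obtain ⟨M, hM⟩ : ∃ M, M = PM K m n J (Fin 1) a := ⟨_, rfl⟩
  have hMC : M ∈ C0 W := by
    rw [hM]
    exact ⟨1, a, ha, rfl⟩
  have hM1 : M.1.map (eval w) = 1 := by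
    ext p q
    have h1 := congrArg (fun x : End2 K m n => x.1 p q) hw
    simp only [evenProj] at h1
    rw [← h1, Matrix.map_apply, hM, PM_fst, eval_poly, Prod.fst_sum, Matrix.sum_apply]
    refine Finset.sum_congr rfl fun j _ => ?_
    rw [Prod.smul_fst, Matrix.smul_apply, smul_eq_mul, mul_comm]
  have hM2 : M.2.map (eval w) = 0 := by
    ext p q
    have h1 := congrArg (fun x : End2 K m n => x.2 p q) hw
    simp only [evenProj] at h1
    rw [← h1, Matrix.map_apply, hM, PM_snd, eval_poly, Prod.snd_sum, Matrix.sum_apply]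
    refine Finset.sum_congr rfl fun j _ => ?_
    rw [Prod.smul_snd, Matrix.smul_apply, smul_eq_mul, mul_comm]
  have htr : ∀ k : ℕ, 1 ≤ k → (M.1 ^ k).trace - (M.2 ^ k).trace ∈ RS W := by
    intro k _
    have h1 := C0_str (C0_pow hMC k)
    exact Submodule.subset_span h1
  obtain ⟨q, c, hqR, hcR, hc0, hq1, hq2⟩ := key (eval w) (RS W) RS_div M.1 M.2 htr hM1 hM2
  obtain ⟨Y, hY⟩ : ∃ Y, Y = ∑ i ∈ Finset.range (q.natDegree + 1), q.coeff i • M ^ i := ⟨_, rfl⟩
  have hYC : Y ∈ Submodule.span ℚ (C0 W) := by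
    rw [hY]
    exact Submodule.sum_mem _ fun i _ => smul_C0 (hqR i) (C0_pow hMC i)
  have hY1 : Y.1 = c • 1 := by
    rw [hY, Prod.fst_sum, ← hq1, Polynomial.aeval_eq_sum_range]
    rfl
  have hY2 : Y.2 = 0 := by
    rw [hY, Prod.snd_sum, ← hq2, Polynomial.aeval_eq_sum_range]
    rfl
  obtain ⟨D, hD⟩ : ∃ D, eval w (homogeneousComponent D c) ≠ 0 := by
    by_contra h
    push Not at h
    apply hc0
    rw [← sum_homogeneousComponent c, map_sum]
    exact Finset.sum_eq_zero fun i _ => h i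
  obtain ⟨f, hf, hfc⟩ := comp_S0 D (mem_RS.1 hcR)
  obtain ⟨b, hb, hb1, hb2⟩ := comp_C0 D hYC
  -- polarisation
  have hperm : ∀ g : (Fin D → J) → K, g ∈ W.sca (Fin D) →
      (fun j => ∑ σ : Equiv.Perm (Fin D), g (fun x => j (σ x))) ∈ W.sca (Fin D) := by
    intro g hg
    have h1 : (fun j : Fin D → J => ∑ σ : Equiv.Perm (Fin D), g (fun x => j (σ x))) =
        ∑ σ : Equiv.Perm (Fin D), fun j : Fin D → J => g (fun x => j (σ x)) := by
      funext j
      rw [Finset.sum_apply]
    rw [h1]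
    exact Submodule.sum_mem _ fun σ _ => W.sca_re σ hg
  have hperm2 : ∀ g : (Fin D → J) → End2 K m n, g ∈ W.cor (Fin D) →
      (fun j => ∑ σ : Equiv.Perm (Fin D), g (fun x => j (σ x))) ∈ W.cor (Fin D) := by
    intro g hg
    have h1 : (fun j : Fin D → J => ∑ σ : Equiv.Perm (Fin D), g (fun x => j (σ x))) =
        ∑ σ : Equiv.Perm (Fin D), fun j : Fin D → J => g (fun x => j (σ x)) := by
      funext j
      rw [Finset.sum_apply]
    rw [h1]
    exact Submodule.sum_mem _ fun σ _ => W.cor_re σ hg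
  refine ⟨D, fun j => ∑ σ : Equiv.Perm (Fin D), f (fun x => j (σ x)), hperm f hf, ?_, ?_⟩
  · rw [sum_perm f w, ← eval_poly, ← hfc]
    refine mul_ne_zero ?_ hD
    exact_mod_cast Nat.factorial_ne_zero _
  · have h1 : (fun j : Fin D → J => (∑ σ : Equiv.Perm (Fin D), f (fun x => j (σ x))) •
        evenProj K m n) = fun j => ∑ σ : Equiv.Perm (Fin D), b (fun x => j (σ x)) := by
      funext j
      refine Prod.ext ?_ ?_
      · ext p q
        have h2 : poly K J (Fin D) ((fun j => f j * (1 : Matrix (Fin m) (Fin m) K) p q) -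
            fun j => (b j).1 p q) = 0 := by
          rw [map_sub, ← hb1, hY1]
          have h3 : (fun j => f j * (1 : Matrix (Fin m) (Fin m) K) p q) =
              ((1 : Matrix (Fin m) (Fin m) K) p q) • f := by
            funext j
            rw [Pi.smul_apply, smul_eq_mul, mul_comm]
          have h4 : (c • (1 : Matrix (Fin m) (Fin m) (MvPolynomial J K))) p q =
              ((1 : Matrix (Fin m) (Fin m) K) p q) • c := by
            rw [Matrix.smul_apply, Matrix.one_apply, Matrix.one_apply]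
            split_ifs
            · rw [smul_eq_mul, mul_one, one_smul]
            · rw [smul_eq_mul, mul_zero, zero_smul]
          rw [h3, h4, map_smul, map_smul, hfc, sub_self]
        have h5 := polar _ h2 j
        simp only [Pi.sub_apply] at h5
        rw [Finset.sum_sub_distrib, sub_eq_zero, ← Finset.sum_mul] at h5
        rw [Prod.smul_fst, Matrix.smul_apply, smul_eq_mul, Prod.fst_sum, Matrix.sum_apply]
        exact h5
      · ext p q
        have h2 : poly K J (Fin D) (fun j => (b j).2 p q) = 0 := by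
          rw [← hb2, hY2]
          exact map_zero _
        have h5 := polar _ h2 j
        rw [Prod.smul_snd, Matrix.smul_apply, smul_eq_mul, Prod.snd_sum, Matrix.sum_apply, h5]
        exact mul_zero _
    rw [h1]
    exact hperm2 b hb

end

end Pool.Agent.H97.QC
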