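import Mathlib

/-!
# Multilinear functions and homogeneous polynomials
-/

set_option autoImplicit false

open MvPolynomial

namespace Pool.Agent.H97.QC

section

variable {K : Type} [Field K] {J : Type} [Fintype J]

/-- the polynomial of a function of several indices -/
noncomputable def poly (K : Type) [Field K] (J : Type) [Fintype J] (s : Type) [Fintype s]
    [DecidableEq s] : ((s → J) → K) →ₗ[K] MvPolynomial J K where
  toFun := fun g => ∑ j : s → J, g j • ∏ i, X (j i)
  map_add' := by
    intro f g
    rw [← Finset.sum_add_distrib]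
    refine Finset.sum_congr rfl fun j _ => ?_
    rw [Pi.add_apply, add_smul]
  map_smul' := by
    intro c f
    rw [RingHom.id_apply, Finset.smul_sum]
    refine Finset.sum_congr rfl fun j _ => ?_
    rw [Pi.smul_apply, smul_eq_mul, mul_smul]

theorem poly_apply {s : Type} [Fintype s] [DecidableEq s] (g : (s → J) → K) :
    poly K J s g = ∑ j : s → J, g j • ∏ i, X (j i) := rfl

theorem poly_mul {s t : Type} [Fintype s] [DecidableEq s] [Fintype t] [DecidableEq t]
    (f : (s → J) → K) (g : (t → J) → K) :
    poly K J (s ⊕ t) (fun j => f (fun x => j (Sum.inl x)) * g (fun x => j (Sum.inr x))) =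
      poly K J s f * poly K J t g := by
  rw [poly_apply, poly_apply, poly_apply, Finset.sum_mul_sum]
  rw [Fintype.sum_equiv (Equiv.sumArrowEquivProdArrow s t J) _
    (fun p : (s → J) × (t → J) => (f p.1 * g p.2) • ((∏ i, X (p.1 i)) * ∏ i, X (p.2 i)))]
  · rw [Fintype.sum_prod_type]
    refine Finset.sum_congr rfl fun j _ => Finset.sum_congr rfl fun j' _ => ?_
    rw [smul_mul_smul_comm]
  · intro j
    rw [Fintype.prod_sum_type]
    rfl

theorem poly_reindex {s t : Type} [Fintype s] [DecidableEq s] [Fintype t] [DecidableEq t]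
    (e : s ≃ t) (f : (s → J) → K) :
    poly K J t (fun j => f (fun x => j (e x))) = poly K J s f := by
  rw [poly_apply, poly_apply]
  refine Fintype.sum_equiv (Equiv.arrowCongr e.symm (Equiv.refl J)) _ _ ?_
  intro j
  have h1 : (Equiv.arrowCongr e.symm (Equiv.refl J)) j = fun x => j (e x) := by
    ext x
    simp [Equiv.arrowCongr]
  rw [h1]
  congr 1
  exact (Fintype.prod_equiv e _ _ fun x => rfl).symm

theorem poly_homogeneous {s : Type} [Fintype s] [DecidableEq s] (g : (s → J) → K) :
    (poly K J s g).IsHomogeneous (Fintype.card s) := by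
  rw [poly_apply]
  refine IsHomogeneous.sum _ _ _ fun j _ => ?_
  rw [smul_eq_C_mul]
  have h1 : (∏ i : s, X (j i) : MvPolynomial J K).IsHomogeneous (∑ i : s, 1) :=
    IsHomogeneous.prod _ _ _ fun i _ => isHomogeneous_X _ _
  rw [Finset.sum_const, Finset.card_univ, smul_eq_mul, mul_one] at h1
  have h2 := (isHomogeneous_C J (g j)).mul h1
  rw [zero_add] at h2
  exact h2

theorem eval_poly {s : Type} [Fintype s] [DecidableEq s] (g : (s → J) → K) (w : J → K) :
    eval w (poly K J s g) = ∑ j : s → J, g j * ∏ i, w (j i) := by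
  rw [poly_apply, map_sum]
  refine Finset.sum_congr rfl fun j _ => ?_
  rw [smul_eval, map_prod]
  simp only [eval_X]

/-- polarisation -/
theorem polar {s : Type} [Fintype s] [DecidableEq s] (g : (s → J) → K)
    (hg : poly K J s g = 0) (j : s → J) : ∑ σ : Equiv.Perm s, g (fun x => j (σ x)) = 0 := by
  classical
  obtain ⟨Ψ, hΨ⟩ : ∃ Ψ : MvPolynomial J K →ₐ[K] MvPolynomial s K,
      ∀ c, Ψ (X c) = ∑ a : s, if j a = c then X a else 0 :=
    ⟨aeval fun c => ∑ a : s, if j a = c then X a else 0, fun c => aeval_X _ _⟩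
  have h1 : Ψ (poly K J s g) = ∑ τ : s → s, g (fun x => j (τ x)) • ∏ i, X (τ i) := by
    rw [poly_apply, map_sum]
    have h2 : ∀ j' : s → J, Ψ (g j' • ∏ i, X (j' i)) =
        ∑ τ : s → s, if (fun x => j (τ x)) = j' then g j' • ∏ i, X (τ i) else 0 := by
      intro j'
      rw [map_smul, map_prod]
      simp only [hΨ]
      rw [Finset.prod_univ_sum, Fintype.piFinset_univ, Finset.smul_sum]
      refine Finset.sum_congr rfl fun τ _ => ?_
      by_cases h3 : (fun x => j (τ x)) = j'
      · rw [if_pos h3]
        congr 1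
        refine Finset.prod_congr rfl fun i _ => ?_
        rw [if_pos (congrFun h3 i)]
      · rw [if_neg h3]
        obtain ⟨i, hi⟩ : ∃ i, j (τ i) ≠ j' i := by
          by_contra h4
          push Not at h4
          exact h3 (funext h4)
        have h5 : (∏ i : s, if j (τ i) = j' i then (X (τ i) : MvPolynomial s K) else 0) = 0 :=
          Finset.prod_eq_zero (Finset.mem_univ i) (if_neg hi)
        rw [h5, smul_zero]
    rw [Finset.sum_congr rfl fun j' _ => h2 j', Finset.sum_comm]
    refine Finset.sum_congr rfl fun τ _ => ?_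
    rw [Finset.sum_ite_eq, if_pos (Finset.mem_univ _)]
  obtain ⟨o, ho⟩ : ∃ o : s →₀ ℕ, o = ∑ i : s, Finsupp.single i 1 := ⟨_, rfl⟩
  have h2 : ∀ τ : s → s, coeff o (∏ i, X (τ i) : MvPolynomial s K) =
      if Function.Bijective τ then 1 else 0 := by
    intro τ
    have h3 : (∏ i, X (τ i) : MvPolynomial s K) = monomial (∑ i, Finsupp.single (τ i) 1) 1 := by
      rw [monomial_sum_one]
      rfl
    rw [h3, coeff_monomial]
    by_cases h4 : Function.Bijective τ
    · rw [if_pos h4, if_pos]
      rw [ho]
      exact Equiv.sum_comp (Equiv.ofBijective τ h4) fun i => Finsupp.single i 1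
    · rw [if_neg h4, if_neg]
      intro h5
      apply h4
      rw [← Finite.surjective_iff_bijective]
      intro b
      by_contra h6
      push Not at h6
      have h7 := DFunLike.congr_fun h5 b
      rw [ho, Finsupp.finsetSum_apply, Finsupp.finsetSum_apply] at h7
      have h8 : ∑ i : s, (Finsupp.single (τ i) 1 : s →₀ ℕ) b = 0 := by
        refine Finset.sum_eq_zero fun i _ => ?_
        rw [Finsupp.single_apply, if_neg (h6 i)]
      have h9 : ∑ i : s, (Finsupp.single i 1 : s →₀ ℕ) b = 1 := by
        simp only [Finsupp.single_apply]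
        rw [Finset.sum_ite_eq' Finset.univ b, if_pos (Finset.mem_univ b)]
      rw [h8, h9] at h7
      exact zero_ne_one h7
  have h3 := congrArg (coeff o) h1
  rw [hg, map_zero, coeff_zero, coeff_sum] at h3
  have h4 : ∑ τ : s → s, coeff o (g (fun x => j (τ x)) • ∏ i, X (τ i) : MvPolynomial s K) =
      ∑ σ : Equiv.Perm s, g (fun x => j (σ x)) := by
    have h5 : ∀ τ : s → s, coeff o (g (fun x => j (τ x)) • ∏ i, X (τ i) : MvPolynomial s K) =
        if Function.Bijective τ then g (fun x => j (τ x)) else 0 := by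
      intro τ
      rw [coeff_smul, h2, smul_eq_mul]
      split_ifs
      · rw [mul_one]
      · rw [mul_zero]
    rw [Finset.sum_congr rfl fun τ _ => h5 τ, ← Finset.sum_filter]
    symm
    refine Finset.sum_bij (fun (σ : Equiv.Perm s) _ => (σ : s → s)) ?_ ?_ ?_ ?_
    · intro σ _
      rw [Finset.mem_filter]
      exact ⟨Finset.mem_univ _, σ.bijective⟩
    · intro σ _ σ' _ h6
      exact Equiv.coe_fn_injective h6
    · intro τ hτ
      rw [Finset.mem_filter] at hτ
      exact ⟨Equiv.ofBijective τ hτ.2, Finset.mem_univ _, rfl⟩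
    · intro σ _
      rfl
  rw [← h4, ← h3]

theorem sum_perm {s : Type} [Fintype s] [DecidableEq s] (g : (s → J) → K) (w : J → K) :
    ∑ j : s → J, (∑ σ : Equiv.Perm s, g (fun x => j (σ x))) * ∏ i, w (j i) =
      (Fintype.card s).factorial * ∑ j : s → J, g j * ∏ i, w (j i) := by
  have h1 : ∀ j : s → J, (∑ σ : Equiv.Perm s, g (fun x => j (σ x))) * ∏ i, w (j i) =
      ∑ σ : Equiv.Perm s, g (fun x => j (σ x)) * ∏ i, w (j (σ i)) := by
    intro j
    rw [Finset.sum_mul]
    refine Finset.sum_congr rfl fun σ _ => ?_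
    congr 1
    exact (Equiv.prod_comp σ fun i => w (j i)).symm
  rw [Finset.sum_congr rfl fun j _ => h1 j, Finset.sum_comm]
  have h2 : ∀ σ : Equiv.Perm s, ∑ j : s → J, g (fun x => j (σ x)) * ∏ i, w (j (σ i)) =
      ∑ j : s → J, g j * ∏ i, w (j i) := by
    intro σ
    refine Fintype.sum_equiv (Equiv.arrowCongr σ.symm (Equiv.refl J)) _ _ ?_
    intro j
    have h3 : (Equiv.arrowCongr σ.symm (Equiv.refl J)) j = fun x => j (σ x) := by
      ext x
      simp [Equiv.arrowCongr]
    rw [h3]
  rw [Finset.sum_congr rfl fun σ _ => h2 σ, Finset.sum_const, Finset.card_univ, Fintype.card_perm,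
    nsmul_eq_mul]

end

end Pool.Agent.H97.QC
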