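import Pool.Agent.H4.CS.RAT

/-!
# Rationality over an arbitrary base field
-/

set_option autoImplicit false

open Polynomial

namespace Pool.Agent.H97.QC

open Pool.Agent.H16.CS Pool.Agent.H4.CS

/-- If the differences of the power sums of two disjoint multisets lie in the field `L`, both monic
polynomials have coefficients in `L`. -/
theorem ratL {L Ω : Type} [Field L] [Field Ω] [Algebra L Ω] [CharZero Ω] (A B : Multiset Ω)
    (p : ℕ → L) (hdis : ∀ x ∈ A, x ∉ B)
    (hp : ∀ n : ℕ, 1 ≤ n → psm A n - psm B n = algebraMap L Ω (p n)) :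
    ∃ P Q : L[X], P.map (algebraMap L Ω) = (A.map fun x => X - C x).prod ∧
      Q.map (algebraMap L Ω) = (B.map fun x => X - C x).prod := by
  obtain ⟨Q, hQ⟩ : ∃ Q, Q = (algebraMap L Ω).fieldRange := ⟨_, rfl⟩
  have hQr : ∀ q : L, (algebraMap L Ω q) ∈ Q := by
    intro q
    rw [hQ]
    exact ⟨q, rfl⟩
  -- the quotient
  obtain ⟨EA, hEA⟩ : ∃ EA, EA = ((rE A : Polynomial Ω) : PowerSeries Ω) := ⟨_, rfl⟩
  obtain ⟨EB, hEB⟩ : ∃ EB, EB = ((rE B : Polynomial Ω) : PowerSeries Ω) := ⟨_, rfl⟩
  have hEA0 : PowerSeries.constantCoeff EA = 1 := by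
    rw [hEA, ← PowerSeries.coeff_zero_eq_constantCoeff_apply, coeff_coe, rE_coeff_zero]
  have hEB0 : PowerSeries.constantCoeff EB = 1 := by
    rw [hEB, ← PowerSeries.coeff_zero_eq_constantCoeff_apply, coeff_coe, rE_coeff_zero]
  have hEAne : EA ≠ 0 := by
    intro h
    rw [h, map_zero] at hEA0
    exact zero_ne_one hEA0
  obtain ⟨Z, hZ⟩ : ∃ Z, Z = EB * EA⁻¹ := ⟨_, rfl⟩
  have hZE : Z * EA = EB := by
    rw [hZ, mul_assoc, mul_comm EA⁻¹, PowerSeries.mul_inv_cancel EA (by rw [hEA0]; exact one_ne_zero),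
      mul_one]
  have hthZ : th Z = Z * (rS A - rS B) := by
    apply mul_right_cancel₀ hEAne
    have h1 := th_mul Z EA
    rw [hZE, hEB, th_rE, ← hEB] at h1
    have h2 : th EA = -(EA * rS A) := by
      rw [hEA, th_rE]
    rw [h2] at h1
    have h3 : th Z * EA = -(EB * rS B) + Z * (EA * rS A) := by
      rw [h1]
      ring
    rw [h3, ← hZE]
    ring
  have hz : ∀ n, PowerSeries.coeff n Z ∈ Q := by
    intro n
    induction n using Nat.strong_induction_on with
    | _ n ih =>
      rcases Nat.eq_zero_or_pos n with h0 | h0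
      · rw [h0, PowerSeries.coeff_zero_eq_constantCoeff_apply]
        have h1 := congrArg PowerSeries.constantCoeff hZE
        rw [map_mul, hEA0, hEB0, mul_one] at h1
        rw [h1]
        exact Q.one_mem
      · have h1 := congrArg (PowerSeries.coeff n) hthZ
        unfold th at h1
        rw [PowerSeries.coeff_mk, PowerSeries.coeff_mul] at h1
        have h2 : (n : Ω) * PowerSeries.coeff n Z ∈ Q := by
          rw [h1]
          refine Q.sum_mem fun q hq => ?_
          rw [Finset.HasAntidiagonal.mem_antidiagonal] at hq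
          rcases Nat.eq_zero_or_pos q.2 with h3 | h3
          · have h4 : PowerSeries.coeff q.2 (rS A - rS B) = 0 := by
              rw [h3, map_sub]
              unfold rS
              rw [PowerSeries.coeff_mk, PowerSeries.coeff_mk, if_pos rfl, if_pos rfl, sub_zero]
            rw [h4, mul_zero]
            exact Q.zero_mem
          · refine Q.mul_mem (ih q.1 (by omega)) ?_
            rw [map_sub]
            unfold rS
            rw [PowerSeries.coeff_mk, PowerSeries.coeff_mk, if_neg (by omega), if_neg (by omega),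
              hp _ h3]
            exact hQr _
        have h3 : (n : Ω) ≠ 0 := by
          exact_mod_cast h0.ne'
        have h4 : PowerSeries.coeff n Z = (n : Ω)⁻¹ * ((n : Ω) * PowerSeries.coeff n Z) := by
          rw [← mul_assoc, inv_mul_cancel₀ h3, one_mul]
        rw [h4]
        exact Q.mul_mem (Q.inv_mem (by simpa using hQr n)) h2
  -- a linear functional
  obtain ⟨r, hr1, hrm⟩ : ∃ r : Ω →+ L, r 1 = 1 ∧ ∀ (q : L) (x : Ω), r (algebraMap L Ω q * x) = q * r x := by
    obtain ⟨g, hg⟩ := LinearMap.exists_leftInverse_of_injective (Algebra.linearMap L Ω)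
      (LinearMap.ker_eq_bot.2 (algebraMap L Ω).injective)
    refine ⟨g.toAddMonoidHom, ?_, fun q x => ?_⟩
    · have := LinearMap.congr_fun hg 1
      rw [LinearMap.comp_apply, Algebra.linearMap_apply, map_one] at this
      exact this
    · have h1 : algebraMap L Ω q * x = q • x := by
        rw [Algebra.smul_def]
      show g (algebraMap L Ω q * x) = q * g x
      rw [h1, map_smul, smul_eq_mul]
  obtain ⟨r', hr'⟩ : ∃ r' : Ω → Ω, r' = fun x => algebraMap L Ω (r x) := ⟨_, rfl⟩
  have hr'0 : r' 0 = 0 := by rw [hr']; simp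
  have hr'1 : r' 1 = 1 := by rw [hr']; simp [hr1]
  have hr'Q : ∀ x, r' x ∈ Q := fun x => by
    rw [hr']
    exact hQr _
  have hr'm : ∀ z ∈ Q, ∀ x, r' (z * x) = z * r' x := by
    intro z hz x
    rw [hQ] at hz
    obtain ⟨q, rfl⟩ := hz
    rw [hr']
    simp only
    rw [hrm, map_mul]
  have hr's : ∀ (s : Finset (ℕ × ℕ)) (g : ℕ × ℕ → Ω), r' (∑ q ∈ s, g q) = ∑ q ∈ s, r' (g q) := by
    intro s g
    rw [hr']
    simp only
    rw [map_sum, map_sum]
  -- the projected polynomials
  have hpoly : ∀ M : Multiset Ω, ∃ P : Polynomial Ω, (∀ n, P.coeff n = r' ((rE M).coeff n)) ∧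
      P.natDegree ≤ M.card := by
    intro M
    refine ⟨∑ i ∈ Finset.range (M.card + 1), monomial i (r' ((rE M).coeff i)), ?_, ?_⟩
    · intro n
      rw [finsetSum_coeff]
      simp only [coeff_monomial]
      rw [Finset.sum_ite_eq' (Finset.range (M.card + 1)) n]
      by_cases hn : n ∈ Finset.range (M.card + 1)
      · rw [if_pos hn]
      · rw [if_neg hn, coeff_eq_zero_of_natDegree_lt, hr'0]
        have h1 := rE_deg M
        rw [Finset.mem_range] at hn
        omega
    · refine natDegree_sum_le_of_forall_le _ _ fun i hi => ?_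
      refine (natDegree_monomial_le _).trans ?_
      have := Finset.mem_range.1 hi
      omega
  obtain ⟨PA, hPA, hPAd⟩ := hpoly A
  obtain ⟨PB, hPB, hPBd⟩ := hpoly B
  have hrel : Z * ((PA : Polynomial Ω) : PowerSeries Ω) = (PB : PowerSeries Ω) := by
    ext n
    rw [PowerSeries.coeff_mul, coeff_coe, hPB]
    have h1 := congrArg (PowerSeries.coeff n) hZE
    rw [PowerSeries.coeff_mul, hEB, coeff_coe] at h1
    rw [← h1, hr's]
    refine Finset.sum_congr rfl fun q _ => ?_
    rw [hr'm _ (hz _), coeff_coe, hPA, hEA, coeff_coe]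
  have hcross : rE B * PA = rE A * PB := by
    apply coe_injective
    rw [coe_mul, coe_mul, ← hrel, ← hEA, ← hEB, ← hZE]
    ring
  have hP0 : ∀ P : Polynomial Ω, ∀ M : Multiset Ω, (∀ n, P.coeff n = r' ((rE M).coeff n)) →
      P.coeff 0 = 1 := by
    intro P M h
    rw [h, rE_coeff_zero, hr'1]
  -- one side
  have hside : ∀ (M N : Multiset Ω) (P P' : Polynomial Ω), (∀ x ∈ M, x ∉ N) → (0 : Ω) ∉ M →
      (∀ n, P.coeff n = r' ((rE M).coeff n)) → P.natDegree ≤ M.card →
      rE N * P = rE M * P' → P = rE M ∧ P' = rE N := by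
    intro M N P P' hd h0 hP hdeg hc
    have h1 : rE M ∣ P := by
      refine (rE_coprime M N hd).dvd_of_dvd_mul_left ?_
      rw [hc]
      exact Dvd.intro _ rfl
    obtain ⟨k, hk⟩ := h1
    have hP1 := hP0 P M hP
    have hk0 : k ≠ 0 := by
      intro h
      rw [h, mul_zero] at hk
      rw [hk, coeff_zero] at hP1
      exact zero_ne_one hP1
    have h2 : k.natDegree = 0 := by
      have h3 := natDegree_mul (rE_ne_zero M) hk0
      rw [← hk, rE_deg_eq M h0] at h3
      omega
    rw [natDegree_eq_zero] at h2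
    obtain ⟨c, hc'⟩ := h2
    have h4 : c = 1 := by
      rw [hk, ← hc', coeff_mul_C, rE_coeff_zero, one_mul] at hP1
      exact hP1
    have h5 : P = rE M := by
      rw [hk, ← hc', h4, C_1, mul_one]
    refine ⟨h5, ?_⟩
    rw [h5, mul_comm] at hc
    exact (mul_left_cancel₀ (rE_ne_zero M) hc).symm
  have hboth : PA = rE A ∧ PB = rE B := by
    by_cases h0 : (0 : Ω) ∈ A
    · have h1 : (0 : Ω) ∉ B := hdis 0 h0
      have h2 := hside B A PB PA (fun x hx hxA => hdis x hxA hx) h1 hPB hPBd hcross.symm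
      exact ⟨h2.2, h2.1⟩
    · exact hside A B PA PB hdis h0 hPA hPAd hcross
  -- conclusion
  have hfin : ∀ (M : Multiset Ω) (P : Polynomial Ω), (∀ n, P.coeff n = r' ((rE M).coeff n)) →
      P = rE M → ∃ T : Polynomial L, T.map (algebraMap L Ω) = (M.map fun x => X - C x).prod := by
    intro M P hP hPE
    have h1 : (M.map fun x => X - C x).prod ∈ lifts (algebraMap L Ω) := by
      rw [lifts_iff_coeff_lifts]
      intro i
      by_cases hi : i ≤ M.card
      · have h2 := coeff_reflect M.card (M.map fun x => X - C x).prod (M.card - i)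
        rw [refl_rE, revAt_le (Nat.sub_le _ _), Nat.sub_sub_self hi] at h2
        rw [← h2, ← hPE, hP]
        have h3 := hr'Q ((rE M).coeff (M.card - i))
        rw [hQ] at h3
        exact h3
      · rw [coeff_eq_zero_of_natDegree_lt
          (by rw [natDegree_multiset_prod_X_sub_C_eq_card]; omega)]
        exact ⟨0, map_zero _⟩
    exact (mem_lifts _).1 h1
  obtain ⟨P, hP⟩ := hfin A PA hPA hboth.1
  obtain ⟨T, hT⟩ := hfin B PB hPB hboth.2
  exact ⟨P, T, hP, hT⟩

end Pool.Agent.H97.QC
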