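import Pool.Agent.H97.QC.KY
import Pool.Agent.H97.QC.Pol
import Pool.Agent.H97.QC.Defs

/-!
# Systems of algebraic classes with slots indexed by types
-/

set_option autoImplicit false

open MvPolynomial

namespace Pool.Agent.H97.QC

/-- a system with slots indexed by types -/
structure TS (K : Type) [Field K] [CharZero K] (m n : ℕ) (J : Type) where
  sca : (s : Type) → Submodule ℚ ((s → J) → K)
  cor : (s : Type) → Submodule ℚ ((s → J) → End2 K m n)
  sca_one : (fun _ => (1 : K)) ∈ sca Empty
  cor_one : (fun _ => (1 : End2 K m n)) ∈ cor Empty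
  sca_mul : ∀ {s t : Type} {f : (s → J) → K} {g : (t → J) → K}, f ∈ sca s → g ∈ sca t →
    (fun j : s ⊕ t → J => f (fun x => j (Sum.inl x)) * g (fun x => j (Sum.inr x))) ∈ sca (s ⊕ t)
  sca_smul : ∀ {s t : Type} {f : (s → J) → K} {a : (t → J) → End2 K m n}, f ∈ sca s → a ∈ cor t →
    (fun j : s ⊕ t → J => f (fun x => j (Sum.inl x)) • a (fun x => j (Sum.inr x))) ∈ cor (s ⊕ t)
  cor_mul : ∀ {s t : Type} {a : (s → J) → End2 K m n} {b : (t → J) → End2 K m n}, a ∈ cor s →
    b ∈ cor t →
    (fun j : s ⊕ t → J => a (fun x => j (Sum.inl x)) * b (fun x => j (Sum.inr x))) ∈ cor (s ⊕ t)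
  str_mem : ∀ {s : Type} {a : (s → J) → End2 K m n}, a ∈ cor s → (fun j => str (a j)) ∈ sca s
  sca_re : ∀ {s t : Type} (e : s ≃ t) {f : (s → J) → K}, f ∈ sca s →
    (fun j : t → J => f (fun x => j (e x))) ∈ sca t
  cor_re : ∀ {s t : Type} (e : s ≃ t) {a : (s → J) → End2 K m n}, a ∈ cor s →
    (fun j : t → J => a (fun x => j (e x))) ∈ cor t

section

variable {K : Type} [Field K] {m n : ℕ} {J : Type} [Fintype J]

/-- the matrices of polynomials of a correspondence -/
noncomputable def PM (K : Type) [Field K] (m n : ℕ) (J : Type) [Fintype J] (s : Type) [Fintype s]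
    [DecidableEq s] : ((s → J) → End2 K m n) →ₗ[K] End2 (MvPolynomial J K) m n where
  toFun := fun a => (Matrix.of fun p q => poly K J s fun j => (a j).1 p q,
    Matrix.of fun p q => poly K J s fun j => (a j).2 p q)
  map_add' := by
    intro a b
    refine Prod.ext ?_ ?_
    · ext1 p q
      exact map_add (poly K J s) (fun j => (a j).1 p q) (fun j => (b j).1 p q)
    · ext1 p q
      exact map_add (poly K J s) (fun j => (a j).2 p q) (fun j => (b j).2 p q)
  map_smul' := by
    intro c a
    refine Prod.ext ?_ ?_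
    · ext1 p q
      exact map_smul (poly K J s) c (fun j => (a j).1 p q)
    · ext1 p q
      exact map_smul (poly K J s) c (fun j => (a j).2 p q)

theorem PM_fst {s : Type} [Fintype s] [DecidableEq s] (a : (s → J) → End2 K m n) (p q : Fin m) :
    (PM K m n J s a).1 p q = poly K J s fun j => (a j).1 p q := rfl

theorem PM_snd {s : Type} [Fintype s] [DecidableEq s] (a : (s → J) → End2 K m n) (p q : Fin n) :
    (PM K m n J s a).2 p q = poly K J s fun j => (a j).2 p q := rfl

theorem poly_sum {s : Type} [Fintype s] [DecidableEq s] {κ : Type} (S : Finset κ)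
    (F : κ → (s → J) → K) : (poly K J s fun j => ∑ r ∈ S, F r j) = ∑ r ∈ S, poly K J s (F r) := by
  rw [← map_sum]
  congr 1
  funext j
  rw [Finset.sum_apply]

theorem PM_mul {s t : Type} [Fintype s] [DecidableEq s] [Fintype t] [DecidableEq t]
    (a : (s → J) → End2 K m n) (b : (t → J) → End2 K m n) :
    PM K m n J (s ⊕ t) (fun j => a (fun x => j (Sum.inl x)) * b (fun x => j (Sum.inr x))) =
      PM K m n J s a * PM K m n J t b := by
  refine Prod.ext ?_ ?_
  · ext1 p q
    rw [PM_fst]
    have h1 : (fun j : s ⊕ t → J =>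
        (a (fun x => j (Sum.inl x)) * b (fun x => j (Sum.inr x))).1 p q) =
        fun j => ∑ r : Fin m, (a (fun x => j (Sum.inl x))).1 p r *
          (b (fun x => j (Sum.inr x))).1 r q := by
      funext j
      rw [Prod.fst_mul, Matrix.mul_apply]
    rw [h1, poly_sum, Prod.fst_mul, Matrix.mul_apply]
    refine Finset.sum_congr rfl fun r _ => ?_
    rw [PM_fst, PM_fst]
    exact poly_mul (fun j => (a j).1 p r) (fun j => (b j).1 r q)
  · ext1 p q
    rw [PM_snd]
    have h1 : (fun j : s ⊕ t → J =>
        (a (fun x => j (Sum.inl x)) * b (fun x => j (Sum.inr x))).2 p q) =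
        fun j => ∑ r : Fin n, (a (fun x => j (Sum.inl x))).2 p r *
          (b (fun x => j (Sum.inr x))).2 r q := by
      funext j
      rw [Prod.snd_mul, Matrix.mul_apply]
    rw [h1, poly_sum, Prod.snd_mul, Matrix.mul_apply]
    refine Finset.sum_congr rfl fun r _ => ?_
    rw [PM_snd, PM_snd]
    exact poly_mul (fun j => (a j).2 p r) (fun j => (b j).2 r q)

theorem PM_smul {s t : Type} [Fintype s] [DecidableEq s] [Fintype t] [DecidableEq t]
    (f : (s → J) → K) (a : (t → J) → End2 K m n) :
    PM K m n J (s ⊕ t) (fun j => f (fun x => j (Sum.inl x)) • a (fun x => j (Sum.inr x))) =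
      poly K J s f • PM K m n J t a := by
  refine Prod.ext ?_ ?_
  · ext1 p q
    exact poly_mul f (fun j => (a j).1 p q)
  · ext1 p q
    exact poly_mul f (fun j => (a j).2 p q)

theorem PM_str {s : Type} [Fintype s] [DecidableEq s] (a : (s → J) → End2 K m n) :
    str (PM K m n J s a) = poly K J s fun j => str (a j) := by
  unfold str Matrix.trace
  have h1 : (fun j : s → J => ∑ i, Matrix.diag (a j).1 i - ∑ i, Matrix.diag (a j).2 i) =
      (fun j => ∑ i, (a j).1 i i) - fun j => ∑ i, (a j).2 i i := by
    funext j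
    rfl
  rw [h1, map_sub, poly_sum, poly_sum]
  rfl

theorem PM_reindex {s t : Type} [Fintype s] [DecidableEq s] [Fintype t] [DecidableEq t]
    (e : s ≃ t) (a : (s → J) → End2 K m n) :
    PM K m n J t (fun j => a (fun x => j (e x))) = PM K m n J s a := by
  refine Prod.ext ?_ ?_
  · ext1 p q
    exact poly_reindex e (fun j => (a j).1 p q)
  · ext1 p q
    exact poly_reindex e (fun j => (a j).2 p q)

theorem poly_empty {s : Type} [Fintype s] [DecidableEq s] [IsEmpty s] (c : K) :
    poly K J s (fun _ => c) = C c := by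
  rw [poly_apply, Fintype.sum_unique]
  simp [smul_eq_C_mul]

theorem PM_one {s : Type} [Fintype s] [DecidableEq s] [IsEmpty s] :
    PM K m n J s (fun _ => 1) = 1 := by
  refine Prod.ext ?_ ?_
  · ext1 p q
    rw [PM_fst, poly_empty, Prod.fst_one, Prod.fst_one, Matrix.one_apply, Matrix.one_apply]
    split_ifs
    · exact C_1
    · exact C_0
  · ext1 p q
    rw [PM_snd, poly_empty, Prod.snd_one, Prod.snd_one, Matrix.one_apply, Matrix.one_apply]
    split_ifs
    · exact C_1
    · exact C_0

end

end Pool.Agent.H97.QC
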